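import Mathlib

set_option autoImplicit false

namespace Pool.Agent.H22

open MvPolynomial

/-- The height inequality for a finite family `y` in a `K`-algebra `L` and candidate heights `h`:
if `w = P(y)`, `w' = P'(y)` with `deg_j P, deg_j P' ≤ m j`, `w ≠ 0` and `y_l ^ M * w = w'`, then
`M * h_l ≤ ∑ m_j h_j`. -/
def HeightIneq (K : Type*) {L : Type*} [Field K] [Field L] [Algebra K L] {ι : Type*} [Fintype ι]
    (y : ι → L) (h : ι → ℝ) : Prop :=
  ∀ (l : ι) (M : ℕ) (m : ι → ℕ) (P P' : MvPolynomial ι K),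
    (∀ j, P.degreeOf j ≤ m j) → (∀ j, P'.degreeOf j ≤ m j) →
    aeval y P ≠ 0 → y l ^ M * aeval y P = aeval y P' →
    (M : ℝ) * h l ≤ ∑ j, (m j : ℝ) * h j

end Pool.Agent.H22
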