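import Mathlib

set_option autoImplicit false

namespace Pool.Agent.H22

open Polynomial

/-- an element lying in every valuation subring above `R` is integral over `R` -/
lemma isIntegral_of_forall_valuationSubring {R L : Type*} [CommRing R] [Field L] [Algebra R L]
    {x : L} (h : ∀ V : ValuationSubring L, (∀ r : R, algebraMap R L r ∈ V) → x ∈ V) :
    IsIntegral R x := by
  by_contra hx
  have hx' : x ∉ (integralClosure R L).toSubring := by
    intro hmem
    exact hx hmem
  obtain ⟨V, hV, hxV⟩ := Subring.exists_le_valuationSubring_of_isIntegrallyClosedIn hx'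
  apply hxV
  apply h
  intro r
  apply hV
  exact (integralClosure R L).algebraMap_mem r

/-- integral elements lie in valuation subrings -/
lemma mem_of_isIntegral {R L : Type*} [CommRing R] [Field L] [Algebra R L]
    {x : L} (V : ValuationSubring L) (hV : ∀ r : R, algebraMap R L r ∈ V)
    (hx : IsIntegral R x) : x ∈ V := by
  have : IsIntegral V.toSubring x := by
    obtain ⟨p, hp, hpx⟩ := hx
    let f : R →+* V.toSubring := (algebraMap R L).codRestrict V.toSubring hV
    refine ⟨p.map f, hp.map f, ?_⟩
    rw [Polynomial.eval₂_map]
    exact hpx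
  have hcl : IsIntegrallyClosedIn V.toSubring L := inferInstanceAs (IsIntegrallyClosedIn V L)
  obtain ⟨y, hy⟩ := IsIntegrallyClosedIn.isIntegral_iff.mp this
  rw [← hy]
  exact y.2

section poly

variable {E L : Type*} [Field E] [Field L] [Algebra E L]

lemma val_algebraMap {V : ValuationSubring L} (hV : ∀ e : E, algebraMap E L e ∈ V) {e : E}
    (he : e ≠ 0) : V.valuation (algebraMap E L e) = 1 := by
  have h1 : V.valuation (algebraMap E L e) ≤ 1 := (V.valuation_le_one_iff _).2 (hV e)
  have h2 : V.valuation (algebraMap E L e⁻¹) ≤ 1 := (V.valuation_le_one_iff _).2 (hV e⁻¹)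
  have h3 : V.valuation (algebraMap E L e) * V.valuation (algebraMap E L e⁻¹) = 1 := by
    rw [← map_mul, ← map_mul, mul_inv_cancel₀ he, map_one, map_one]
  apply le_antisymm h1
  calc (1 : V.ValueGroup) = V.valuation (algebraMap E L e) * V.valuation (algebraMap E L e⁻¹) :=
        h3.symm
    _ ≤ V.valuation (algebraMap E L e) * 1 := by gcongr
    _ = _ := mul_one _

lemma val_algebraMap_le {V : ValuationSubring L} (hV : ∀ e : E, algebraMap E L e ∈ V) (e : E) :
    V.valuation (algebraMap E L e) ≤ 1 := (V.valuation_le_one_iff _).2 (hV e)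

/-- a polynomial with coefficients in `E` is constant modulo the maximal ideal -/
lemma val_aeval_sub_lt {V : ValuationSubring L} (hV : ∀ e : E, algebraMap E L e ∈ V)
    {y : L} {c : E} (hy : V.valuation (y - algebraMap E L c) < 1) (q : E[X]) :
    V.valuation (aeval y q - algebraMap E L (q.eval c)) < 1 := by
  have hyV : y ∈ V := by
    have h1 : y - algebraMap E L c ∈ V := (V.valuation_le_one_iff _).1 hy.le
    have h2 := V.add_mem _ _ h1 (hV c)
    simpa using h2
  -- `X - C c ∣ q - C (q.eval c)`
  obtain ⟨s, hs⟩ : (X - C c) ∣ q - C (q.eval c) := X_sub_C_dvd_sub_C_eval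
  have h3 : aeval y q - algebraMap E L (q.eval c) = (y - algebraMap E L c) * aeval y s := by
    have := congrArg (aeval y) hs
    simpa using this
  rw [h3, map_mul]
  have h4 : aeval y s ∈ V := by
    rw [aeval_eq_sum_range]
    apply sum_mem
    intro i _
    rw [Algebra.smul_def]
    exact V.mul_mem _ _ (hV _) (pow_mem hyV i)
  have h5 : V.valuation (aeval y s) ≤ 1 := (V.valuation_le_one_iff _).2 h4
  calc V.valuation (y - algebraMap E L c) * V.valuation (aeval y s)
      ≤ V.valuation (y - algebraMap E L c) * 1 := by gcongr
    _ < 1 := by rwa [mul_one]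

/-- generic `c`: for every pair `y_l, y_j` there is a nonzero polynomial `q` such that, for every
valuation subring over `E` with `y_l` not in it, `y_j ≡ c` forces `q(c) = 0`. -/
lemma exists_poly_avoid {yl yj : L} (halg : Transcendental E yj → IsAlgebraic (IntermediateField.adjoin E {yj}) yl) :
    ∃ q : E[X], q ≠ 0 ∧ ∀ V : ValuationSubring L, (∀ e : E, algebraMap E L e ∈ V) → yl ∉ V →
      ∀ c : E, V.valuation (yj - algebraMap E L c) < 1 → q.eval c = 0 := by
  -- it suffices to find q with v(q(yj)) < 1
  suffices h : ∃ q : E[X], q ≠ 0 ∧ ∀ V : ValuationSubring L, (∀ e : E, algebraMap E L e ∈ V) →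
      yl ∉ V → yj ∈ V → V.valuation (aeval yj q) < 1 by
    obtain ⟨q, hq0, hq⟩ := h
    refine ⟨q, hq0, fun V hV hyl c hc => ?_⟩
    by_contra hne
    have hyj : yj ∈ V := by
      have h1 : yj - algebraMap E L c ∈ V := (V.valuation_le_one_iff _).1 hc.le
      have h2 := V.add_mem _ _ h1 (hV c)
      simpa using h2
    have h1 := hq V hV hyl hyj
    have h2 := val_aeval_sub_lt hV hc q
    have h3 : V.valuation (algebraMap E L (q.eval c)) = 1 := val_algebraMap hV hne
    have h4 : algebraMap E L (q.eval c) =
        aeval yj q - (aeval yj q - algebraMap E L (q.eval c)) := by ring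
    have h5 : V.valuation (algebraMap E L (q.eval c)) < 1 := by
      rw [h4]
      exact lt_of_le_of_lt (V.valuation.map_sub _ _) (max_lt h1 h2)
    rw [h3] at h5
    exact lt_irrefl _ h5
  by_cases htr : Transcendental E yj
  · -- relation with leading coefficient in E[yj]
    have h1 : IsAlgebraic (Algebra.adjoin E {yj}) yl :=
      IntermediateField.isAlgebraic_adjoin_iff.1 (halg htr)
    obtain ⟨p, hp0, hp⟩ := h1
    have hrep : ∀ a : Algebra.adjoin E {yj}, ∃ g : E[X], aeval yj g = (a : L) := by
      rintro ⟨a, ha⟩
      have ha' := ha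
      rw [Algebra.adjoin_singleton_eq_range_aeval] at ha'
      obtain ⟨g, hg⟩ := ha'
      exact ⟨g, hg⟩
    obtain ⟨q, hq⟩ := hrep p.leadingCoeff
    refine ⟨q, ?_, ?_⟩
    · rintro rfl
      apply hp0
      rw [← leadingCoeff_eq_zero]
      apply Subtype.ext
      rw [← hq]
      simp
    · intro V hV hyl hyj
      have hq' : aeval yj q = (p.leadingCoeff : L) := hq
      rw [hq']
      -- all coefficients are in V
      have hcoef : ∀ i, (p.coeff i : L) ∈ V := by
        intro i
        obtain ⟨g, hg⟩ := hrep (p.coeff i)
        rw [← hg]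
        rw [aeval_eq_sum_range]
        apply sum_mem
        intro i _
        rw [Algebra.smul_def]
        exact V.mul_mem _ _ (hV _) (pow_mem hyj i)
      have hyl1 : 1 < V.valuation yl := by
        rw [← not_le, V.valuation_le_one_iff]
        exact hyl
      -- expand p(yl) = 0
      have hsum : (p.leadingCoeff : L) * yl ^ p.natDegree =
          - ∑ i ∈ Finset.range p.natDegree, (p.coeff i : L) * yl ^ i := by
        rw [aeval_eq_sum_range, Finset.sum_range_succ] at hp
        simp only [Algebra.smul_def] at hp
        have h2 : (algebraMap (Algebra.adjoin E {yj}) L) (p.coeff p.natDegree) =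
          (p.leadingCoeff : L) := rfl
        rw [h2] at hp
        have h3 : ∀ i, (algebraMap (Algebra.adjoin E {yj}) L) (p.coeff i) = (p.coeff i : L) :=
          fun i => rfl
        simp only [h3] at hp
        linear_combination hp
      have hpos : 0 < p.natDegree := by
        by_contra hcon
        have h0 : p.natDegree = 0 := by omega
        rw [h0] at hsum
        simp at hsum
        exact hp0 hsum
      have hle : V.valuation (∑ i ∈ Finset.range p.natDegree, (p.coeff i : L) * yl ^ i) ≤
          V.valuation yl ^ (p.natDegree - 1) := by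
        apply Valuation.map_sum_le
        intro i hi
        rw [Finset.mem_range] at hi
        rw [map_mul, map_pow]
        calc V.valuation (p.coeff i : L) * V.valuation yl ^ i
            ≤ 1 * V.valuation yl ^ (p.natDegree - 1) := by
              gcongr
              · exact (V.valuation_le_one_iff _).2 (hcoef i)
              · exact hyl1.le
              · omega
          _ = _ := one_mul _
      by_contra hcon
      rw [not_lt] at hcon
      have h4 : V.valuation yl ^ p.natDegree ≤ V.valuation yl ^ (p.natDegree - 1) := by
        calc V.valuation yl ^ p.natDegree = 1 * V.valuation yl ^ p.natDegree := (one_mul _).symm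
          _ ≤ V.valuation (p.leadingCoeff : L) * V.valuation yl ^ p.natDegree := by gcongr
          _ = V.valuation ((p.leadingCoeff : L) * yl ^ p.natDegree) := by
              rw [map_mul, map_pow]
          _ = V.valuation (∑ i ∈ Finset.range p.natDegree, (p.coeff i : L) * yl ^ i) := by
              rw [hsum, Valuation.map_neg]
          _ ≤ _ := hle
      have h5 : V.valuation yl ^ (p.natDegree - 1) < V.valuation yl ^ p.natDegree :=
        pow_lt_pow_right₀ hyl1 (by omega)
      exact absurd h4 (not_le.2 h5)
  · have halg' : IsAlgebraic E yj := by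
      by_contra h
      exact htr h
    obtain ⟨q, hq0, hq⟩ := halg'
    exact ⟨q, hq0, fun V hV hyl hyj => by rw [hq, map_zero]; exact zero_lt_one⟩

end poly

end Pool.Agent.H22
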