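import Mathlib
import Pool.Agent.H22.Val

set_option autoImplicit false
set_option linter.unusedSectionVars false
set_option linter.unusedSimpArgs false

namespace Pool.Agent.H22

open Polynomial

/-- the valuation ring at infinity of `E(X)` -/
noncomputable def Oinf (E : Type*) [Field E] : ValuationSubring (RatFunc E) where
  carrier := {r | r.intDegree ≤ 0}
  zero_mem' := by simp
  one_mem' := by simp
  add_mem' := by
    intro a b ha hb
    simp only [Set.mem_ofPred_eq] at *
    by_cases hb0 : b = 0
    · rw [hb0, add_zero]; exact ha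
    by_cases hab : a + b = 0
    · rw [hab]; simp
    exact (RatFunc.intDegree_add_le hb0 hab).trans (max_le ha hb)
  mul_mem' := by
    intro a b ha hb
    simp only [Set.mem_ofPred_eq] at *
    by_cases ha0 : a = 0
    · rw [ha0, zero_mul]; simp
    by_cases hb0 : b = 0
    · rw [hb0, mul_zero]; simp
    rw [RatFunc.intDegree_mul ha0 hb0]
    omega
  neg_mem' := by
    intro a ha
    simp only [Set.mem_ofPred_eq] at *
    rwa [RatFunc.intDegree_neg]
  mem_or_inv_mem' := by
    intro a
    change a.intDegree ≤ 0 ∨ (a⁻¹).intDegree ≤ 0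
    rw [RatFunc.intDegree_inv]
    omega

lemma mem_Oinf {E : Type*} [Field E] {r : RatFunc E} : r ∈ Oinf E ↔ r.intDegree ≤ 0 := Iff.rfl

/-- the same ring as a subring -/
noncomputable abbrev OinfS (E : Type*) [Field E] : Subring (RatFunc E) := (Oinf E).toSubring

section degree

variable {E L : Type*} [Field E] [Field L] [Algebra E L] [Algebra E[X] L] [Algebra (RatFunc E) L]
  [IsScalarTower E[X] (RatFunc E) L] [IsScalarTower E E[X] L]

lemma intDegree_norm_nonpos {x : L} (hx : IsIntegral (OinfS E) x) :
    (Algebra.norm (RatFunc E) x).intDegree ≤ 0 := by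
  have h1 : IsIntegral (OinfS E) (Algebra.norm (RatFunc E) x) := Algebra.isIntegral_norm _ hx
  have h2 := mem_of_isIntegral (Oinf E) (fun r => r.2) h1
  exact h2

lemma norm_eq_poly {x : L} (hx : IsIntegral E[X] x) :
    ∃ p : E[X], Algebra.norm (RatFunc E) x = algebraMap E[X] (RatFunc E) p := by
  have h1 : IsIntegral E[X] (Algebra.norm (RatFunc E) x) := Algebra.isIntegral_norm _ hx
  obtain ⟨p, hp⟩ := IsIntegrallyClosed.isIntegral_iff.mp h1
  exact ⟨p, hp.symm⟩

lemma swap_coeff (P : E[X][X]) (i j : ℕ) :
    ((Bivariate.swap P).coeff i).coeff j = (P.coeff j).coeff i := by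
  induction P using Polynomial.induction_on' with
  | add p q hp hq => simp only [map_add, coeff_add, hp, hq]
  | monomial n a =>
    induction a using Polynomial.induction_on' with
    | add p q hp hq => simp only [map_add, coeff_add, hp, hq]
    | monomial m r =>
      rw [Bivariate.swap_monomial_monomial]
      simp only [coeff_monomial]
      by_cases h1 : m = i
      · by_cases h2 : n = j
        · simp [h1, h2]
        · simp [h1, h2, coeff_monomial]
      · by_cases h2 : n = j
        · simp [h1, h2, coeff_monomial]
        · simp [h1, h2]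

lemma natDegree_swap_le {P : E[X][X]} {d : ℕ} (h : ∀ i, (P.coeff i).natDegree ≤ d) :
    (Bivariate.swap P).natDegree ≤ d := by
  rw [natDegree_le_iff_coeff_eq_zero]
  intro n hn
  ext j
  rw [swap_coeff, coeff_zero]
  exact coeff_eq_zero_of_natDegree_lt (lt_of_le_of_lt (h j) hn)

lemma le_natDegree_swap {P : E[X][X]} (i : ℕ) (hi : P.coeff i ≠ 0) :
    (P.coeff i).natDegree ≤ (Bivariate.swap P).natDegree := by
  apply le_natDegree_of_ne_zero
  intro h
  have := swap_coeff P (P.coeff i).natDegree i
  rw [h, coeff_zero] at this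
  exact hi (leadingCoeff_eq_zero.mp this.symm)

end degree

end Pool.Agent.H22
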