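import Mathlib
import Pool.Agent.H22.Norm

set_option autoImplicit false
set_option linter.unusedSectionVars false
set_option linter.unusedSimpArgs false

namespace Pool.Agent.H22

open Polynomial IntermediateField

lemma minpoly_inv {K L : Type*} [Field K] [Field L] [Algebra K L] {x : L} (hx0 : x ≠ 0)
    (hx : IsIntegral K x) :
    minpoly K x⁻¹ = C ((minpoly K x).coeff 0)⁻¹ * (minpoly K x).reverse := by
  set m := minpoly K x with hm
  have hc0 : m.coeff 0 ≠ 0 := minpoly.coeff_zero_ne_zero hx hx0
  have htr : m.natTrailingDegree = 0 := by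
    rw [natTrailingDegree_eq_zero]; right; exact hc0
  have hdeg : m.reverse.natDegree = m.natDegree := by rw [reverse_natDegree, htr, Nat.sub_zero]
  have hmonic : (C (m.coeff 0)⁻¹ * m.reverse).Monic := by
    rw [Monic, leadingCoeff_mul, leadingCoeff_C, reverse_leadingCoeff, trailingCoeff, htr,
      inv_mul_cancel₀ hc0]
  have hrev : aeval x⁻¹ m.reverse = 0 := by
    let : Invertible x := invertibleOfNonzero hx0
    have h1 := (eval₂_reverse_eq_zero_iff (algebraMap K L) x m).2 (minpoly.aeval K x)
    have h2 : ⅟x = x⁻¹ := invOf_eq_inv x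
    rw [h2] at h1
    exact h1
  have hroot : aeval x⁻¹ (C (m.coeff 0)⁻¹ * m.reverse) = 0 := by
    rw [map_mul, hrev, mul_zero]
  have hdvd := minpoly.dvd K x⁻¹ hroot
  have hinv : IsIntegral K x⁻¹ := hx.inv
  refine (eq_of_monic_of_dvd_of_natDegree_le (minpoly.monic hinv) hmonic hdvd ?_).symm
  rw [natDegree_C_mul (inv_ne_zero hc0), hdeg, hm, ← adjoin.finrank hx, ← adjoin.finrank hinv]
  have heq : K⟮x⁻¹⟯ = K⟮x⟯ := by
    apply le_antisymm
    · rw [adjoin_simple_le_iff]
      exact inv_mem (mem_adjoin_simple_self K x)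
    · rw [adjoin_simple_le_iff]
      have := inv_mem (mem_adjoin_simple_self K x⁻¹)
      rwa [inv_inv] at this
  rw [heq]

section

variable {E L : Type*} [Field E] [Field L] [Algebra E L] [Algebra E[X] L] [Algebra (RatFunc E) L]
  [IsScalarTower E[X] (RatFunc E) L] [IsScalarTower E E[X] L]

lemma minpoly_coeff_div {x : L} (hx0 : x ≠ 0) (hxi : IsIntegral (RatFunc E) x)
    (hx : IsIntegral (OinfS E) x⁻¹) (i : ℕ) :
    ((minpoly (RatFunc E) x).coeff i / (minpoly (RatFunc E) x).coeff 0).intDegree ≤ 0 := by
  have : IsFractionRing (OinfS E) (RatFunc E) := inferInstanceAs (IsFractionRing (Oinf E) _)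
  have : IsIntegrallyClosed (OinfS E) := inferInstanceAs (IsIntegrallyClosed (Oinf E))
  set m := minpoly (RatFunc E) x with hm
  have hc0 : m.coeff 0 ≠ 0 := minpoly.coeff_zero_ne_zero hxi hx0
  by_cases hi : i ≤ m.natDegree
  · have h1 := minpoly.isIntegrallyClosed_eq_field_fractions' (RatFunc E) hx
    rw [minpoly_inv hx0 hxi, ← hm] at h1
    have h2 := congrArg (fun p => p.coeff (m.natDegree - i)) h1
    simp only [coeff_C_mul, coeff_reverse, coeff_map] at h2
    rw [revAt_le (Nat.sub_le _ _), Nat.sub_sub_self hi] at h2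
    rw [div_eq_inv_mul, h2]
    exact ((minpoly (OinfS E) x⁻¹).coeff (m.natDegree - i)).2
  · rw [coeff_eq_zero_of_natDegree_lt (not_le.mp hi), zero_div]
    simp

/-- the degrees of the coefficients of the minimal polynomial over `E[X]` -/
lemma natDegree_coeff_le {x : L} (hx0 : x ≠ 0) (hx1 : IsIntegral E[X] x)
    (hx : IsIntegral (OinfS E) x⁻¹) (i : ℕ) :
    ((minpoly E[X] x).coeff i).natDegree ≤ ((minpoly E[X] x).coeff 0).natDegree := by
  have hxi : IsIntegral (RatFunc E) x := hx1.tower_top
  have h1 := minpoly_coeff_div hx0 hxi hx i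
  have h2 := minpoly.isIntegrallyClosed_eq_field_fractions' (RatFunc E) hx1
  have hc0 : (minpoly (RatFunc E) x).coeff 0 ≠ 0 := minpoly.coeff_zero_ne_zero hxi hx0
  rw [h2, coeff_map] at hc0
  rw [h2, coeff_map, coeff_map] at h1
  by_cases hci : algebraMap E[X] (RatFunc E) ((minpoly E[X] x).coeff i) = 0
  · have : (minpoly E[X] x).coeff i = 0 := by
      apply FaithfulSMul.algebraMap_injective E[X] (RatFunc E)
      rw [hci, map_zero]
    rw [this]; simp
  rw [RatFunc.intDegree_div hci hc0, RatFunc.intDegree_polynomial, RatFunc.intDegree_polynomial]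
    at h1
  omega

lemma intDegree_pow {r : RatFunc E} (hr : r ≠ 0) (n : ℕ) :
    (r ^ n).intDegree = n * r.intDegree := by
  induction n with
  | zero => simp
  | succ n ih =>
    rw [pow_succ, RatFunc.intDegree_mul (pow_ne_zero n hr) hr, ih]
    push_cast
    ring

lemma intDegree_norm_eq {x : L} (hx0 : x ≠ 0) (hx1 : IsIntegral E[X] x) :
    (Algebra.norm (RatFunc E) x).intDegree =
      (Module.finrank (RatFunc E)⟮x⟯ L : ℤ) * ((minpoly E[X] x).coeff 0).natDegree := by
  have hxi : IsIntegral (RatFunc E) x := hx1.tower_top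
  have h2 := minpoly.isIntegrallyClosed_eq_field_fractions' (RatFunc E) hx1
  have hc0 : (minpoly (RatFunc E) x).coeff 0 ≠ 0 := minpoly.coeff_zero_ne_zero hxi hx0
  rw [Algebra.norm_eq_norm_adjoin]
  have h3 : Algebra.norm (RatFunc E) (AdjoinSimple.gen (RatFunc E) x) =
      (-1) ^ (adjoin.powerBasis hxi).dim * (minpoly (RatFunc E) x).coeff 0 := by
    have := Algebra.PowerBasis.norm_gen_eq_coeff_zero_minpoly (adjoin.powerBasis hxi)
    rw [adjoin.powerBasis_gen, minpoly_gen] at this
    exact this
  rw [h3]
  have h4 : ((-1 : RatFunc E) ^ (adjoin.powerBasis hxi).dim *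
      (minpoly (RatFunc E) x).coeff 0) ≠ 0 :=
    mul_ne_zero (pow_ne_zero _ (neg_ne_zero.mpr one_ne_zero)) hc0
  rw [intDegree_pow h4, RatFunc.intDegree_mul (pow_ne_zero _ (neg_ne_zero.mpr one_ne_zero)) hc0,
    intDegree_pow (neg_ne_zero.mpr one_ne_zero), RatFunc.intDegree_neg, RatFunc.intDegree_one,
    mul_zero, zero_add, h2, coeff_map, RatFunc.intDegree_polynomial]

/-- evaluation of bivariate polynomials -/
lemma aevalAeval_eq (x : L) (P : E[X][X]) :
    aevalAeval (algebraMap E[X] L X) x P = aeval x P := by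
  induction P using Polynomial.induction_on' with
  | add p q hp hq => rw [map_add, map_add, hp, hq]
  | monomial n a =>
    rw [← C_mul_X_pow_eq_monomial, map_mul, map_mul, map_pow, map_pow, aevalAeval_Y, aeval_X,
      aevalAeval_C, aeval_C]
    congr 1
    have h := (aeval_algebraMap_apply L (X : E[X]) a)
    rw [aeval_X_left_apply] at h
    exact h

lemma natDegree_minpoly_t {x : L} (hx0 : x ≠ 0) (hx1 : IsIntegral E[X] x)
    (hx : IsIntegral (OinfS E) x⁻¹) (htr : Transcendental E x) :
    IsIntegral E⟮x⟯ (algebraMap E[X] L X) ∧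
    (minpoly E⟮x⟯ (algebraMap E[X] L X)).natDegree = ((minpoly E[X] x).coeff 0).natDegree := by
  set t : L := algebraMap E[X] L X with ht
  set m := minpoly E[X] x with hm
  set D := (m.coeff 0).natDegree with hD
  have hm0 : m.coeff 0 ≠ 0 := by
    have h2 := minpoly.isIntegrallyClosed_eq_field_fractions' (RatFunc E) hx1
    have hc0 : (minpoly (RatFunc E) x).coeff 0 ≠ 0 :=
      minpoly.coeff_zero_ne_zero hx1.tower_top hx0
    rw [h2, coeff_map] at hc0
    intro h
    apply hc0
    rw [← hm, h, map_zero]
  -- the map E[X] → E⟮x⟯ sending X to x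
  let g : E⟮x⟯ := AdjoinSimple.gen E x
  have hg : (g : L) = x := rfl
  let φ : E[X] →+* E⟮x⟯ := (aeval g : E[X] →ₐ[E] E⟮x⟯).toRingHom
  have hφinj : Function.Injective φ := by
    have h1 : Transcendental E g := by
      intro halg
      apply htr
      exact halg.algebraMap (A := L)
    exact transcendental_iff_injective.1 h1
  -- `swap m` evaluated
  let q : E⟮x⟯[X] := (Bivariate.swap m).map φ
  have hq0 : q ≠ 0 := by
    rw [Ne, Polynomial.map_eq_zero_iff hφinj]
    intro h
    apply hm0
    have h2 : m = 0 := by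
      have h3 := congrArg Bivariate.swap h
      rw [Bivariate.swap_swap_apply, map_zero] at h3
      exact h3
    rw [h2, coeff_zero]
  have heval : ∀ P : E[X][X], aeval t (P.map φ) = aevalAeval x t P := by
    intro P
    induction P using Polynomial.induction_on' with
    | add p q hp hq => rw [Polynomial.map_add, map_add, map_add, hp, hq]
    | monomial n a =>
      rw [← C_mul_X_pow_eq_monomial, Polynomial.map_mul, Polynomial.map_pow, map_C, map_X, map_mul,
        map_mul, map_pow, map_pow, aevalAeval_Y, aeval_X, aevalAeval_C, aeval_C]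
      congr 1
      have : algebraMap E⟮x⟯ L (aeval g a) = aeval (algebraMap E⟮x⟯ L g) a :=
        (aeval_algebraMap_apply L g a).symm
      exact this
  have hqt : aeval t q = 0 := by
    rw [heval, Bivariate.aevalAeval_swap, ht, aevalAeval_eq]
    exact minpoly.aeval _ _
  have hqdeg : q.natDegree ≤ D :=
    natDegree_map_le.trans (natDegree_swap_le (fun i => natDegree_coeff_le hx0 hx1 hx i))
  have htint : IsIntegral E⟮x⟯ t := by
    rw [← isAlgebraic_iff_isIntegral]
    exact ⟨q, hq0, hqt⟩
  refine ⟨htint, ?_⟩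
  apply le_antisymm
  · exact (natDegree_le_of_dvd (minpoly.dvd _ _ hqt) hq0).trans hqdeg
  · -- lower bound
    let : Algebra E[X] E⟮x⟯ := φ.toAlgebra
    have hfrac : IsFractionRing E[X] E⟮x⟯ := by
      let e : RatFunc E ≃ₐ[E[X]] E⟮x⟯ :=
        { RatFunc.algEquivOfTranscendental x htr with
          commutes' := fun r => RatFunc.algEquivOfTranscendental_algebraMap x htr r }
      exact IsLocalization.isLocalization_of_algEquiv _ e
    set pt := minpoly E⟮x⟯ t with hpt
    have hpt0 : pt ≠ 0 := minpoly.ne_zero htint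
    set Q := IsLocalization.integerNormalization (nonZeroDivisors E[X]) pt with hQ
    have hQ0 : Q ≠ 0 := by
      intro h
      exact hpt0 (IsFractionRing.integerNormalization_eq_zero_iff.1 h)
    obtain ⟨b, -, hb⟩ := IsLocalization.integerNormalization_spec (nonZeroDivisors E[X]) pt
    have hQt : aeval t (Q.map φ) = 0 := by
      have h1 : Q.map φ = b • pt := hb
      rw [h1, Algebra.smul_def, map_mul]
      rw [hpt, minpoly.aeval, mul_zero]
    have hinj : Function.Injective (algebraMap E[X] L) := by
      rw [IsScalarTower.algebraMap_eq E[X] (RatFunc E) L]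
      exact (algebraMap (RatFunc E) L).injective.comp
        (FaithfulSMul.algebraMap_injective E[X] (RatFunc E))
    have hfaith : FaithfulSMul E[X] L := (faithfulSMul_iff_algebraMap_injective _ _).2 hinj
    have h2 : aeval x (Bivariate.swap Q) = 0 := by
      rw [← aevalAeval_eq, Bivariate.aevalAeval_swap, ← heval, hQt]
    obtain ⟨r, hr⟩ := minpoly.isIntegrallyClosed_dvd hx1 h2
    have h3 : Q = Bivariate.swap m * Bivariate.swap r := by
      rw [← map_mul, hm, ← hr, Bivariate.swap_swap_apply]
    have hsm0 : Bivariate.swap m ≠ 0 := by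
      intro h; apply hQ0; rw [h3, h, zero_mul]
    have hsr0 : Bivariate.swap r ≠ 0 := by
      intro h; apply hQ0; rw [h3, h, mul_zero]
    have h4 : D ≤ Q.natDegree := by
      rw [h3, natDegree_mul hsm0 hsr0]
      exact (le_natDegree_swap 0 hm0).trans (Nat.le_add_right _ _)
    have h5 : Q.natDegree ≤ pt.natDegree := by
      apply natDegree_le_natDegree
      apply degree_mono
      exact IsLocalization.integerNormalization_support (nonZeroDivisors E[X]) pt
    exact h4.trans h5

lemma algebraMap_E_eq (e : E) :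
    algebraMap E L e = algebraMap (RatFunc E) L (algebraMap E[X] (RatFunc E) (C e)) := by
  rw [← IsScalarTower.algebraMap_apply E[X] (RatFunc E) L, ← Polynomial.algebraMap_eq,
    ← IsScalarTower.algebraMap_apply E E[X] L]

lemma toSubfield_eq (x : L) :
    (IntermediateField.adjoin E⟮x⟯ {algebraMap E[X] L X}).toSubfield =
      (IntermediateField.adjoin (RatFunc E) {x} : IntermediateField (RatFunc E) L).toSubfield := by
  apply le_antisymm
  · change Subfield.closure (Set.range (algebraMap E⟮x⟯ L) ∪ {algebraMap E[X] L X}) ≤ _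
    rw [Subfield.closure_le]
    rintro a (⟨b, rfl⟩ | rfl)
    · have hle : (E⟮x⟯ : IntermediateField E L).toSubfield ≤
          ((RatFunc E)⟮x⟯ : IntermediateField (RatFunc E) L).toSubfield := by
        change Subfield.closure (Set.range (algebraMap E L) ∪ {x}) ≤ _
        rw [Subfield.closure_le]
        rintro a (⟨e, rfl⟩ | rfl)
        · rw [algebraMap_E_eq]
          exact ((RatFunc E)⟮x⟯).algebraMap_mem _
        · exact mem_adjoin_simple_self (RatFunc E) _
      exact hle b.2
    · rw [IsScalarTower.algebraMap_apply E[X] (RatFunc E) L]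
      exact ((RatFunc E)⟮x⟯).algebraMap_mem _
  · change Subfield.closure (Set.range (algebraMap (RatFunc E) L) ∪ {x}) ≤ _
    rw [Subfield.closure_le]
    set T : IntermediateField E⟮x⟯ L := IntermediateField.adjoin E⟮x⟯ {algebraMap E[X] L X}
      with hT
    have hpoly : ∀ p : E[X], algebraMap E[X] L p ∈ T := by
      intro p
      have h1 : algebraMap E[X] L p = aeval (algebraMap E[X] L X) p := by
        rw [aeval_algebraMap_apply, aeval_X_left_apply]
      rw [h1, aeval_eq_sum_range]
      apply sum_mem
      intro i _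
      rw [Algebra.smul_def]
      apply mul_mem
      · rw [IsScalarTower.algebraMap_apply E E⟮x⟯ L]
        exact T.algebraMap_mem _
      · exact pow_mem (mem_adjoin_simple_self _ _) i
    rintro a (⟨r, rfl⟩ | hax)
    · change algebraMap (RatFunc E) L r ∈ T
      rw [← RatFunc.num_div_denom r, map_div₀, ← IsScalarTower.algebraMap_apply,
        ← IsScalarTower.algebraMap_apply]
      exact div_mem (hpoly _) (hpoly _)
    · rw [Set.mem_singleton_iff.1 hax]
      exact T.algebraMap_mem (AdjoinSimple.gen E x)

lemma finrank_eq_of_toSubfield_eq {F₁ F₂ L : Type*} [Field F₁] [Field F₂] [Field L] [Algebra F₁ L]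
    [Algebra F₂ L] (A : IntermediateField F₁ L) (B : IntermediateField F₂ L)
    (h : A.toSubfield = B.toSubfield) : Module.finrank A L = Module.finrank B L := by
  have h1 : ∀ S T : Subfield L, S = T → Module.finrank S L = Module.finrank T L := by
    rintro S T rfl; rfl
  exact h1 _ _ h

/-- the degree of the norm is the degree of the field extension -/
theorem intDegree_norm_eq_finrank {x : L} (hx0 : x ≠ 0) (hx1 : IsIntegral E[X] x)
    (hx : IsIntegral (OinfS E) x⁻¹) (htr : Transcendental E x) :
    (Algebra.norm (RatFunc E) x).intDegree = (Module.finrank E⟮x⟯ L : ℤ) := by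
  obtain ⟨htint, h1⟩ := natDegree_minpoly_t hx0 hx1 hx htr
  set t : L := algebraMap E[X] L X with ht
  have h2 := intDegree_norm_eq hx0 hx1
  have h3 : Module.finrank E⟮x⟯ L =
      Module.finrank E⟮x⟯ (IntermediateField.adjoin E⟮x⟯ {t}) *
        Module.finrank (IntermediateField.adjoin E⟮x⟯ {t}) L :=
    (Module.finrank_mul_finrank _ _ _).symm
  rw [adjoin.finrank htint, h1, finrank_eq_of_toSubfield_eq _ _ (toSubfield_eq x)] at h3
  rw [h2, h3]
  push_cast
  ring

end

end Pool.Agent.H22
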