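import Mathlib
import Pool.Agent.H22.Defs
import Pool.Agent.H22.LemmaD

set_option autoImplicit false
set_option linter.unusedSectionVars false
set_option linter.unusedSimpArgs false

namespace Pool.Agent.H22

open Polynomial IntermediateField

lemma adjoin_sub_algebraMap {E L : Type*} [Field E] [Field L] [Algebra E L] (y : L) (c : E) :
    E⟮y - algebraMap E L c⟯ = E⟮y⟯ := by
  apply le_antisymm
  · rw [adjoin_simple_le_iff]
    exact sub_mem (mem_adjoin_simple_self E y) ((E⟮y⟯).algebraMap_mem c)
  · rw [adjoin_simple_le_iff]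
    have := add_mem (mem_adjoin_simple_self E (y - algebraMap E L c))
      ((E⟮y - algebraMap E L c⟯).algebraMap_mem c)
    rwa [sub_add_cancel] at this

/-- an algebraic element has height zero -/
lemma finrank_eq_zero_of_algebraic {E L : Type*} [Field E] [Field L] [Algebra E L]
    (htr : ∃ t : L, Transcendental E t) {x : L} (hx : ¬ Transcendental E x) :
    Module.finrank E⟮x⟯ L = 0 := by
  apply Module.finrank_of_not_finite
  intro hfin
  have hx' : IsIntegral E x := by
    rw [← isAlgebraic_iff_isIntegral]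
    by_contra h
    exact hx h
  have h1 : FiniteDimensional E E⟮x⟯ := adjoin.finiteDimensional hx'
  have h2 : FiniteDimensional E L := FiniteDimensional.trans E E⟮x⟯ L
  obtain ⟨t, ht⟩ := htr
  exact ht (Algebra.IsAlgebraic.isAlgebraic t)

section

variable {E L : Type*} [Field E] [Field L] [Algebra E L] [Algebra E[X] L] [Algebra (RatFunc E) L]
  [IsScalarTower E[X] (RatFunc E) L] [IsScalarTower E E[X] L]

lemma norm_ne_zero [FiniteDimensional (RatFunc E) L] {x : L} (hx : x ≠ 0) :
    Algebra.norm (RatFunc E) x ≠ 0 := by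
  rwa [Algebra.norm_ne_zero_iff]

lemma norm_inv' {x : L} (hx : x ≠ 0) :
    Algebra.norm (RatFunc E) x⁻¹ = (Algebra.norm (RatFunc E) x)⁻¹ := by
  apply eq_inv_of_mul_eq_one_right
  rw [← map_mul, mul_inv_cancel₀ hx, map_one]

lemma intDegree_norm_nonneg [FiniteDimensional (RatFunc E) L] {x : L}
    (hx : IsIntegral E[X] x) : 0 ≤ (Algebra.norm (RatFunc E) x).intDegree := by
  obtain ⟨p, hp⟩ := norm_eq_poly hx
  rw [hp, RatFunc.intDegree_polynomial]
  positivity

/-- degree of the norm, general case -/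
theorem intDegree_norm_eq_finrank' [FiniteDimensional (RatFunc E) L]
    (htr : ∃ t : L, Transcendental E t) {x : L} (hx0 : x ≠ 0)
    (hx1 : IsIntegral E[X] x) (hx : IsIntegral (OinfS E) x⁻¹) :
    (Algebra.norm (RatFunc E) x).intDegree = (Module.finrank E⟮x⟯ L : ℤ) := by
  by_cases hxt : Transcendental E x
  · exact intDegree_norm_eq_finrank hx0 hx1 hx hxt
  · rw [finrank_eq_zero_of_algebraic htr hxt]
    have hx' : IsIntegral E x := by
      rw [← isAlgebraic_iff_isIntegral]
      by_contra h
      exact hxt h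
    have hinv : IsIntegral E x⁻¹ := hx'.inv
    have h1 := intDegree_norm_nonneg hx1
    have h2 := intDegree_norm_nonneg (hinv.tower_top (A := E[X]))
    rw [norm_inv' hx0, RatFunc.intDegree_inv] at h2
    push_cast
    omega

/-- integrality at infinity from valuation rings -/
lemma isIntegral_Oinf_of_forall [FiniteDimensional (RatFunc E) L] {a : L}
    (h : ∀ V : ValuationSubring L, (∀ e : E, algebraMap E L e ∈ V) →
      algebraMap E[X] L X ∉ V → a ∈ V) : IsIntegral (OinfS E) a := by
  apply isIntegral_of_forall_valuationSubring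
  intro V hV
  have hV' : ∀ r : RatFunc E, r.intDegree ≤ 0 → algebraMap (RatFunc E) L r ∈ V := by
    intro r hr
    exact hV ⟨r, hr⟩
  have hE : ∀ e : E, algebraMap E L e ∈ V := by
    intro e
    rw [algebraMap_E_eq]
    apply hV'
    rw [RatFunc.intDegree_polynomial, natDegree_C]
    simp
  by_cases ht : algebraMap E[X] L X ∈ V
  · -- then `V` is everything
    have hall : ∀ r : RatFunc E, algebraMap (RatFunc E) L r ∈ V := by
      intro r
      by_cases hr : r = 0
      · rw [hr, map_zero]; exact V.zero_mem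
      set n := r.intDegree.natAbs with hn
      have h1 : r = (r / (RatFunc.X : RatFunc E) ^ n) * RatFunc.X ^ n := by
        rw [div_mul_cancel₀]
        exact pow_ne_zero _ RatFunc.X_ne_zero
      rw [h1, map_mul, map_pow]
      apply V.mul_mem
      · apply hV'
        rw [RatFunc.intDegree_div hr (pow_ne_zero _ RatFunc.X_ne_zero),
          intDegree_pow RatFunc.X_ne_zero, RatFunc.intDegree_X]
        omega
      · apply pow_mem
        rw [← RatFunc.algebraMap_X, ← IsScalarTower.algebraMap_apply]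
        exact ht
    apply mem_of_isIntegral (R := RatFunc E) V hall
    rw [← isAlgebraic_iff_isIntegral]
    exact Algebra.IsAlgebraic.isAlgebraic a
  · exact h V hE ht

lemma intDegree_prod_pow {ι : Type*} (s : Finset ι) (r : ι → RatFunc E) (hr : ∀ j ∈ s, r j ≠ 0)
    (m : ι → ℕ) : (∏ j ∈ s, r j ^ m j).intDegree = ∑ j ∈ s, (m j : ℤ) * (r j).intDegree := by
  classical
  induction s using Finset.induction_on with
  | empty => simp
  | insert a s ha ih =>
    rw [Finset.prod_insert ha, Finset.sum_insert ha, RatFunc.intDegree_mul, intDegree_pow,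
      ih (fun j hj => hr j (Finset.mem_insert_of_mem hj))]
    · exact hr a (Finset.mem_insert_self a s)
    · exact pow_ne_zero _ (hr a (Finset.mem_insert_self a s))
    · rw [Finset.prod_ne_zero_iff]
      intro j hj
      exact pow_ne_zero _ (hr j (Finset.mem_insert_of_mem hj))

/-- the norm computation -/
theorem norm_ineq [FiniteDimensional (RatFunc E) L] (htr : ∃ t : L, Transcendental E t)
    {ι : Type*} [Fintype ι] (x : ι → L) (hx0 : ∀ j, x j ≠ 0) (hx1 : ∀ j, IsIntegral E[X] (x j))
    (hx2 : ∀ j, IsIntegral (OinfS E) (x j)⁻¹) (i₀ : ι) (M : ℕ) (m : ι → ℕ) (w : L) (hw0 : w ≠ 0)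
    (hw1 : IsIntegral E[X] w)
    (ha : IsIntegral (OinfS E) (w * x i₀ ^ M / ∏ j, x j ^ m j)) :
    M * Module.finrank E⟮x i₀⟯ L ≤ ∑ j, m j * Module.finrank E⟮x j⟯ L := by
  set a := w * x i₀ ^ M / ∏ j, x j ^ m j with hadef
  have hprod0 : ∏ j, x j ^ m j ≠ 0 := by
    rw [Finset.prod_ne_zero_iff]
    intro j _
    exact pow_ne_zero _ (hx0 j)
  have ha0 : a ≠ 0 := div_ne_zero (mul_ne_zero hw0 (pow_ne_zero _ (hx0 i₀))) hprod0
  have h1 : w * x i₀ ^ M = a * ∏ j, x j ^ m j := by
    rw [hadef, div_mul_cancel₀ _ hprod0]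
  have h2 := congrArg (fun z => (Algebra.norm (RatFunc E) z).intDegree) h1
  simp only [map_mul, map_pow, map_prod] at h2
  rw [RatFunc.intDegree_mul (norm_ne_zero hw0) (pow_ne_zero _ (norm_ne_zero (hx0 i₀))),
    intDegree_pow (norm_ne_zero (hx0 i₀)), RatFunc.intDegree_mul (norm_ne_zero ha0),
    intDegree_prod_pow _ _ (fun j _ => norm_ne_zero (hx0 j))] at h2
  · have h3 := intDegree_norm_nonneg hw1
    have h4 := intDegree_norm_nonpos ha
    have h5 : ∀ j, (Algebra.norm (RatFunc E) (x j)).intDegree = (Module.finrank E⟮x j⟯ L : ℤ) :=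
      fun j => intDegree_norm_eq_finrank' htr (hx0 j) (hx1 j) (hx2 j)
    simp only [h5] at h2
    have h6 : (M : ℤ) * Module.finrank E⟮x i₀⟯ L ≤
        ∑ j, (m j : ℤ) * Module.finrank E⟮x j⟯ L := by linarith
    exact_mod_cast h6
  · rw [Finset.prod_ne_zero_iff]
    intro j _
    exact pow_ne_zero _ (norm_ne_zero (hx0 j))

end

end Pool.Agent.H22
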