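import Mathlib
import Pool.Agent.H22.Defs
import Pool.Agent.H22.Curve

set_option autoImplicit false
set_option linter.unusedSectionVars false
set_option linter.unusedSimpArgs false

namespace Pool.Agent.H22

open IntermediateField

section

variable {E L : Type*} [Field E] [Field L] [Algebra E L]

lemma val_aeval_le {ι : Type*} [Fintype ι] (y : ι → L) (V : ValuationSubring L)
    (hV : ∀ e : E, algebraMap E L e ∈ V) (m : ι → ℕ) (P : MvPolynomial ι E)
    (hP : ∀ j, P.degreeOf j ≤ m j) :
    V.valuation (MvPolynomial.aeval y P) ≤ ∏ j, max 1 (V.valuation (y j)) ^ m j := by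
  rw [MvPolynomial.aeval_def, MvPolynomial.eval₂_eq']
  apply Valuation.map_sum_le
  intro d hd
  rw [map_mul, map_prod]
  calc V.valuation (algebraMap E L (MvPolynomial.coeff d P)) * ∏ j, V.valuation (y j ^ d j)
      ≤ 1 * ∏ j, max 1 (V.valuation (y j)) ^ m j := by
        apply mul_le_mul' (val_algebraMap_le hV _)
        apply Finset.prod_le_prod'
        intro j _
        rw [map_pow]
        calc V.valuation (y j) ^ d j ≤ max 1 (V.valuation (y j)) ^ d j := by
              gcongr
              exact le_max_right _ _
          _ ≤ max 1 (V.valuation (y j)) ^ m j := by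
              apply pow_le_pow_right₀ (le_max_left _ _)
              exact (MvPolynomial.monomial_le_degreeOf j hd).trans (hP j)
    _ = _ := one_mul _

lemma mem_of_aeval {ι : Type*} (y : ι → L) (V : ValuationSubring L)
    (hV : ∀ e : E, algebraMap E L e ∈ V) (hy : ∀ j, y j ∈ V) (P : MvPolynomial ι E) :
    MvPolynomial.aeval y P ∈ V := by
  induction P using MvPolynomial.induction_on with
  | C a => rw [MvPolynomial.aeval_C]; exact hV a
  | add p q hp hq => rw [map_add]; exact V.add_mem _ _ hp hq
  | mul_X p i hp => rw [map_mul, MvPolynomial.aeval_X]; exact V.mul_mem _ _ hp (hy i)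

/-- Noether normalization: a good parameter for the algebra generated by the `y j` -/
lemma exists_t
    (hcurve : ∀ t : L, Transcendental E t → FiniteDimensional E⟮t⟯ L)
    {ι : Type*} [Finite ι] (y : ι → L) (i₀ : ι) (hy : Transcendental E (y i₀)) :
    ∃ t : L, Transcendental E t ∧
      (∀ V : ValuationSubring L, (∀ e : E, algebraMap E L e ∈ V) → (∀ j, y j ∈ V) → t ∈ V) ∧
      (∀ V : ValuationSubring L, (∀ e : E, algebraMap E L e ∈ V) → t ∈ V → ∀ j, y j ∈ V) := by
  classical
  set A := Algebra.adjoin E (Set.range y) with hA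
  have hft : Algebra.FiniteType E A := by
    rw [← Subalgebra.fg_iff_finiteType]
    exact Subalgebra.fg_def.2 ⟨Set.range y, Set.finite_range y, rfl⟩
  have hyA : ∀ j, y j ∈ A := fun j => Algebra.subset_adjoin (Set.mem_range_self j)
  obtain ⟨s, g, ginj, gint⟩ := exists_integral_inj_algHom_of_fg E A
  -- the images of the variables
  set u : Fin s → L := fun i => (g (MvPolynomial.X i) : L) with hu
  have hgu : ∀ P, (g P : L) = MvPolynomial.aeval u P := by
    intro P
    have h1 : A.val.comp g = MvPolynomial.aeval u := by
      apply MvPolynomial.algHom_ext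
      intro i
      simp [hu]
    exact congrArg (fun f => f P) h1
  have hind : AlgebraicIndependent E u := by
    rw [algebraicIndependent_iff_injective_aeval]
    intro P Q hPQ
    rw [← hgu, ← hgu] at hPQ
    exact ginj (Subtype.ext hPQ)
  have hVu : ∀ V : ValuationSubring L, (∀ e : E, algebraMap E L e ∈ V) → (∀ i, u i ∈ V) →
      ∀ a : A, (a : L) ∈ V := by
    intro V hV hui a
    let : Algebra (MvPolynomial (Fin s) E) L := (A.val.comp g).toRingHom.toAlgebra
    apply mem_of_isIntegral (R := MvPolynomial (Fin s) E) V
    · intro P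
      have : algebraMap (MvPolynomial (Fin s) E) L P = (g P : L) := rfl
      rw [this, hgu]
      exact mem_of_aeval u V hV hui P
    · obtain ⟨p, hp, hpa⟩ := gint a
      refine ⟨p, hp, ?_⟩
      have h4 := Polynomial.hom_eval₂ p g.toRingHom A.val.toRingHom a
      rw [hpa, map_zero] at h4
      exact h4.symm
  have hAV : ∀ V : ValuationSubring L, (∀ e : E, algebraMap E L e ∈ V) → (∀ j, y j ∈ V) →
      ∀ a : A, (a : L) ∈ V := by
    intro V hV hyj a
    let V' : Subalgebra E L := { V.toSubring with algebraMap_mem' := hV }
    have h1 : A ≤ V' := by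
      rw [hA, Algebra.adjoin_le_iff]
      rintro _ ⟨j, rfl⟩
      exact hyj j
    exact h1 a.2
  -- `s = 1`
  have hs0 : s ≠ 0 := by
    rintro rfl
    apply hy
    rw [isAlgebraic_iff_isIntegral]
    apply isIntegral_of_forall_valuationSubring
    intro V hV
    exact hVu V hV (fun i => i.elim0) ⟨y i₀, hyA i₀⟩
  have hs1 : s < 2 := by
    by_contra hcon
    rw [not_lt] at hcon
    let i0 : Fin s := ⟨0, by omega⟩
    let i1 : Fin s := ⟨1, by omega⟩
    have h0 : Transcendental E (u i0) := hind.transcendental i0
    have h1 : i1 ∉ ({i0} : Set (Fin s)) := by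
      simp [i0, i1]
    have h2 := hind.transcendental_adjoin h1
    rw [Set.image_singleton] at h2
    have h3 := hcurve _ h0
    have h4 : IsAlgebraic E⟮u i0⟯ (u i1) := Algebra.IsAlgebraic.isAlgebraic _
    exact h2 (IntermediateField.isAlgebraic_adjoin_iff.1 h4)
  obtain rfl : s = 1 := by omega
  refine ⟨u 0, hind.transcendental 0, ?_, ?_⟩
  · intro V hV hyj
    exact hAV V hV hyj (g (MvPolynomial.X 0))
  · intro V hV ht j
    apply hVu V hV _ ⟨y j, hyA j⟩
    intro i
    rw [Subsingleton.elim i 0]
    exact ht

/-- generic constants -/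
lemma exists_c [Infinite E]
    (hcurve : ∀ t : L, Transcendental E t → FiniteDimensional E⟮t⟯ L)
    {ι : Type*} [Fintype ι] (y : ι → L) :
    ∃ c : ι → E, ∀ V : ValuationSubring L, (∀ e : E, algebraMap E L e ∈ V) → (∃ l, y l ∉ V) →
      ∀ j, ¬ V.valuation (y j - algebraMap E L (c j)) < 1 := by
  classical
  have hq : ∀ l j, ∃ q : Polynomial E, q ≠ 0 ∧ ∀ V : ValuationSubring L,
      (∀ e : E, algebraMap E L e ∈ V) → y l ∉ V →
      ∀ c : E, V.valuation (y j - algebraMap E L c) < 1 → q.eval c = 0 := by
    intro l j
    apply exists_poly_avoid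
    intro htr
    have := hcurve _ htr
    exact Algebra.IsAlgebraic.isAlgebraic _
  choose q hq0 hq1 using hq
  have hc : ∀ j, ∃ c : E, (∏ l, q l j).eval c ≠ 0 := by
    intro j
    by_contra hcon
    push Not at hcon
    have h1 : ∏ l, q l j = 0 := by
      apply Polynomial.funext
      intro c
      rw [hcon c, Polynomial.eval_zero]
    rw [Finset.prod_eq_zero_iff] at h1
    obtain ⟨l, -, hl⟩ := h1
    exact hq0 l j hl
  choose c hc using hc
  refine ⟨c, ?_⟩
  rintro V hV ⟨l, hl⟩ j hlt
  apply hc j
  rw [Polynomial.eval_prod]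
  exact Finset.prod_eq_zero (Finset.mem_univ l) (hq1 l j V hV hl (c j) hlt)

end

/-- heights on a curve: `h(y) = [L : E(y)]` -/
theorem curve_heightIneq {E L : Type*} [Field E] [Infinite E] [Field L] [Algebra E L]
    (htr : ∃ t : L, Transcendental E t)
    (hcurve : ∀ t : L, Transcendental E t → FiniteDimensional (IntermediateField.adjoin E {t}) L)
    {ι : Type*} [Fintype ι] (y : ι → L) :
    HeightIneq E y (fun j => (Module.finrank (IntermediateField.adjoin E {y j}) L : ℝ)) := by
  intro i₀ M m P P' hP hP' hw0 hrel
  have hgoal : M * Module.finrank E⟮y i₀⟯ L ≤ ∑ j, m j * Module.finrank E⟮y j⟯ L := by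
    by_cases hyi : Transcendental E (y i₀)
    swap
    · rw [finrank_eq_zero_of_algebraic htr hyi, mul_zero]
      exact Nat.zero_le _
    obtain ⟨t, ht, htV1, htV2⟩ := exists_t hcurve y i₀ hyi
    obtain ⟨c, hc⟩ := exists_c hcurve y
    -- algebra structures given by `t`
    let iA : Algebra (Polynomial E) L := (Polynomial.aeval t : Polynomial E →ₐ[E] L).toAlgebra
    let iB : Algebra (RatFunc E) L :=
      ((E⟮t⟯).val.comp (RatFunc.algEquivOfTranscendental t ht).toAlgHom).toAlgebra
    have iT1 : IsScalarTower (Polynomial E) (RatFunc E) L := by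
      apply IsScalarTower.of_algebraMap_eq
      intro p
      have h1 := RatFunc.algEquivOfTranscendental_algebraMap t ht p
      have h2 : algebraMap (RatFunc E) L (algebraMap (Polynomial E) (RatFunc E) p) =
          (RatFunc.algEquivOfTranscendental t ht (algebraMap (Polynomial E) (RatFunc E) p) : L) :=
        rfl
      rw [h2, h1]
      change Polynomial.aeval t p =
        algebraMap E⟮t⟯ L (Polynomial.aeval (AdjoinSimple.gen E t) p)
      rw [← Polynomial.aeval_algebraMap_apply]
      rfl
    have iT2 : IsScalarTower E (Polynomial E) L := by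
      apply IsScalarTower.of_algebraMap_eq
      intro e
      change _ = Polynomial.aeval t (algebraMap E (Polynomial E) e)
      rw [AlgHom.commutes]
    have ifin : FiniteDimensional (RatFunc E) L := by
      let iC : Algebra (RatFunc E) E⟮t⟯ :=
        (RatFunc.algEquivOfTranscendental t ht).toRingEquiv.toRingHom.toAlgebra
      have iT3 : IsScalarTower (RatFunc E) E⟮t⟯ L := by
        apply IsScalarTower.of_algebraMap_eq
        intro r
        rfl
      have h1 : Module.Finite (RatFunc E) E⟮t⟯ := by
        apply Module.Finite.of_surjective (Algebra.linearMap (RatFunc E) E⟮t⟯)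
        exact (RatFunc.algEquivOfTranscendental t ht).surjective
      have h2 := hcurve t ht
      exact Module.Finite.trans E⟮t⟯ L
    have htX : algebraMap (Polynomial E) L Polynomial.X = t := by
      change Polynomial.aeval t Polynomial.X = t
      rw [Polynomial.aeval_X]
    set x : ι → L := fun j => y j - algebraMap E L (c j) with hx
    -- a valuation ring missing `y i₀`
    obtain ⟨V₀, hV₀, hyV₀⟩ : ∃ V : ValuationSubring L, (∀ e : E, algebraMap E L e ∈ V) ∧
        y i₀ ∉ V := by
      by_contra hcon
      push Not at hcon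
      apply hyi
      rw [isAlgebraic_iff_isIntegral]
      exact isIntegral_of_forall_valuationSubring hcon
    have hx0 : ∀ j, x j ≠ 0 := by
      intro j hj
      apply hc V₀ hV₀ ⟨i₀, hyV₀⟩ j
      change V₀.valuation (x j) < 1
      rw [hj, map_zero]
      exact zero_lt_one
    have hxge : ∀ V : ValuationSubring L, (∀ e : E, algebraMap E L e ∈ V) → t ∉ V →
        ∀ j, 1 ≤ V.valuation (x j) := by
      intro V hV htV j
      rw [← not_lt]
      apply hc V hV
      by_contra hcon
      push Not at hcon
      exact htV (htV1 V hV hcon)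
    have hVpoly : ∀ V : ValuationSubring L, (∀ p : Polynomial E, algebraMap (Polynomial E) L p ∈ V) →
        (∀ e : E, algebraMap E L e ∈ V) ∧ t ∈ V := by
      intro V hV
      refine ⟨fun e => ?_, ?_⟩
      · rw [IsScalarTower.algebraMap_apply E (Polynomial E) L]
        exact hV _
      · rw [← htX]; exact hV _
    have hx1 : ∀ j, IsIntegral (Polynomial E) (x j) := by
      intro j
      apply isIntegral_of_forall_valuationSubring
      intro V hV
      obtain ⟨hE, htV⟩ := hVpoly V hV
      exact sub_mem (htV2 V hE htV j) (hE _)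
    have hx2 : ∀ j, IsIntegral (OinfS E) (x j)⁻¹ := by
      intro j
      apply isIntegral_Oinf_of_forall
      intro V hV htV
      rw [htX] at htV
      rw [← V.valuation_le_one_iff, map_inv₀]
      exact inv_le_one_of_one_le₀ (hxge V hV htV j)
    have hw1 : IsIntegral (Polynomial E) (MvPolynomial.aeval y P) := by
      apply isIntegral_of_forall_valuationSubring
      intro V hV
      obtain ⟨hE, htV⟩ := hVpoly V hV
      exact mem_of_aeval y V hE (htV2 V hE htV) P
    have ha : IsIntegral (OinfS E) (MvPolynomial.aeval y P * x i₀ ^ M / ∏ j, x j ^ m j) := by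
      apply isIntegral_Oinf_of_forall
      intro V hV htV
      rw [htX] at htV
      have hge := hxge V hV htV
      have hmax : ∀ j, max 1 (V.valuation (y j)) = V.valuation (x j) := by
        intro j
        apply le_antisymm
        · apply max_le (hge j)
          have h1 : y j = x j + algebraMap E L (c j) := by
            rw [hx]; ring
          rw [h1]
          refine (V.valuation.map_add _ _).trans (max_le le_rfl ?_)
          exact (val_algebraMap_le hV _).trans (hge j)
        · refine (V.valuation.map_sub _ _).trans ?_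
          apply max_le (le_max_right _ _)
          exact (val_algebraMap_le hV _).trans (le_max_left _ _)
      have hb : ∀ Q : MvPolynomial ι E, (∀ j, Q.degreeOf j ≤ m j) →
          V.valuation (MvPolynomial.aeval y Q) ≤ ∏ j, V.valuation (x j) ^ m j := by
        intro Q hQ
        have h1 := val_aeval_le y V hV m Q hQ
        simp only [hmax] at h1
        exact h1
      rw [← V.valuation_le_one_iff, map_div₀, map_mul, map_pow, map_prod]
      simp only [map_pow]
      have hpos : 0 < ∏ j, V.valuation (x j) ^ m j := by
        rw [zero_lt_iff, Finset.prod_ne_zero_iff]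
        intro j _
        exact pow_ne_zero _ ((V.valuation.ne_zero_iff).2 (hx0 j))
      rw [div_le_one₀ hpos]
      rcases le_or_gt (V.valuation (y i₀)) 1 with hle | hgt
      · have h1 : V.valuation (x i₀) = 1 := by rw [← hmax, max_eq_left hle]
        rw [h1, one_pow, mul_one]
        exact hb P hP
      · have h1 : V.valuation (x i₀) = V.valuation (y i₀) := by rw [← hmax, max_eq_right hgt.le]
        rw [h1, mul_comm, ← map_pow, ← map_mul, hrel]
        exact hb P' hP'
    have hmain := norm_ineq htr x hx0 hx1 hx2 i₀ M m _ hw0 hw1 ha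
    have hfr : ∀ j, Module.finrank E⟮x j⟯ L = Module.finrank E⟮y j⟯ L := by
      intro j
      have h1 : E⟮x j⟯ = E⟮y j⟯ := adjoin_sub_algebraMap (y j) (c j)
      rw [h1]
    simp only [hfr] at hmain
    exact hmain
  have h2 : ((M * Module.finrank E⟮y i₀⟯ L : ℕ) : ℝ) ≤
      ((∑ j, m j * Module.finrank E⟮y j⟯ L : ℕ) : ℝ) := by exact_mod_cast hgoal
  push_cast at h2
  exact h2

end Pool.Agent.H22
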