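import Mathlib
import Pool.Agent.H22.Defs

/-!
The window inequality, by a dimension count for box spaces of polynomials.
-/

set_option autoImplicit false

namespace Pool.Agent.H22

open MvPolynomial

section Box

set_option linter.unusedSectionVars false

variable {K : Type*} [Field K] {ι : Type*} [Fintype ι] [DecidableEq ι]

/-- The polynomials all of whose monomials have exponents less than `b`. -/
noncomputable def box (K : Type*) [Field K] {ι : Type*} (b : ι → ℕ) : Submodule K (MvPolynomial ι K) :=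
  restrictSupport K {s | ∀ j, s j < b j}

lemma mem_box {b : ι → ℕ} {P : MvPolynomial ι K} :
    P ∈ box K b ↔ ∀ s ∈ P.support, ∀ j, s j < b j := Iff.rfl

/-- The exponents in a box. -/
noncomputable def boxEquiv (b : ι → ℕ) : {s : ι →₀ ℕ | ∀ j, s j < b j} ≃ ((j : ι) → Fin (b j)) where
  toFun s := fun j => ⟨s.1 j, s.2 j⟩
  invFun f := ⟨Finsupp.equivFunOnFinite.symm fun j => (f j : ℕ), fun j => (f j).2⟩
  left_inv s := by
    apply Subtype.ext
    ext j
    rfl
  right_inv f := by
    funext j
    rfl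

lemma finite_box (b : ι → ℕ) : Module.Finite K (box K b) := by
  have : Finite {s : ι →₀ ℕ | ∀ j, s j < b j} := Finite.of_equiv _ (boxEquiv b).symm
  exact Module.Finite.of_basis (basisRestrictSupport K {s : ι →₀ ℕ | ∀ j, s j < b j})

lemma finrank_box (b : ι → ℕ) : Module.finrank K (box K b) = ∏ j, b j := by
  have h := Module.finrank_eq_nat_card_basis
    (basisRestrictSupport K {s : ι →₀ ℕ | ∀ j, s j < b j})
  have h2 : Nat.card {s : ι →₀ ℕ | ∀ j, s j < b j} = ∏ j, b j := by
    rw [Nat.card_congr (boxEquiv b), Nat.card_pi]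
    simp
  exact h.trans h2

lemma degreeOf_le_of_mem_box {b : ι → ℕ} {P : MvPolynomial ι K} (hP : P ∈ box K b) (j : ι) :
    P.degreeOf j ≤ b j :=
  degreeOf_le_iff.2 fun s hs => (mem_box.1 hP s hs j).le

lemma mul_mem_box {b d : ι → ℕ} {P Q : MvPolynomial ι K} (hP : ∀ j, P.degreeOf j ≤ d j)
    (hQ : Q ∈ box K b) (b' : ι → ℕ) (hb : ∀ j, 0 < b j → d j + b j ≤ b' j) :
    P * Q ∈ box K b' := by
  by_cases hQ0 : Q = 0
  · rw [hQ0, mul_zero]
    exact zero_mem _
  have hpos : ∀ j, 0 < b j := by
    intro j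
    obtain ⟨s, hs⟩ := MvPolynomial.ne_zero_iff.1 hQ0
    exact lt_of_le_of_lt (Nat.zero_le _) (mem_box.1 hQ s (mem_support_iff.2 hs) j)
  rw [mem_box]
  intro s hs j
  have h1 : s j ≤ (P * Q).degreeOf j := degreeOf_le_iff.1 le_rfl s hs
  have h2 := degreeOf_mul_le j P Q
  have h3 : Q.degreeOf j < b j := by
    have h4 : Q.degreeOf j ≤ b j - 1 := by
      rw [degreeOf_le_iff]
      intro s hs
      have := mem_box.1 hQ s hs j
      omega
    have := hpos j
    omega
  have h4 := hP j
  have h5 := hb j (hpos j)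
  omega

lemma prod_ite (l : ι) (A : ℕ) (f : ι → ℕ) :
    ∏ j, (if j = l then A else f j) = A * ∏ j ∈ Finset.univ.erase l, f j := by
  rw [← Finset.mul_prod_erase Finset.univ _ (Finset.mem_univ l), if_pos rfl]
  congr 1
  refine Finset.prod_congr rfl fun j hj => ?_
  rw [if_neg (Finset.ne_of_mem_erase hj)]

/-- The Weierstrass product inequality. -/
lemma one_sub_sum_le {α : Type*} (s : Finset α) (a : α → ℝ) (h0 : ∀ i ∈ s, 0 ≤ a i)
    (h1 : ∀ i ∈ s, a i ≤ 1) : 1 - ∑ i ∈ s, (1 - a i) ≤ ∏ i ∈ s, a i := by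
  classical
  induction s using Finset.induction_on with
  | empty => simp
  | insert x s hx ih =>
    rw [Finset.sum_insert hx, Finset.prod_insert hx]
    have h2 := ih (fun i hi => h0 i (Finset.mem_insert_of_mem hi))
      (fun i hi => h1 i (Finset.mem_insert_of_mem hi))
    have h3 : ∏ i ∈ s, a i ≤ 1 := Finset.prod_le_one
      (fun i hi => h0 i (Finset.mem_insert_of_mem hi))
      (fun i hi => h1 i (Finset.mem_insert_of_mem hi))
    have h4 := h0 x (Finset.mem_insert_self _ _)
    have h5 := h1 x (Finset.mem_insert_self _ _)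
    nlinarith

/-- The arithmetic of the dimension count. -/
lemma count_lt {s : Finset ι} (M r c : ℕ) (hr : 0 < r) (hc : s.card < c) (ρ m : ι → ℕ)
    (hm0 : ∀ j ∈ s, 0 < m j) (hm : ∀ j ∈ s, c * M * ρ j ≤ m j * r) :
    M * ∏ j ∈ s, m j < r * ∏ j ∈ s, m j + M * ∏ j ∈ s, (m j - ρ j) := by
  have hP : (0 : ℝ) < ∏ j ∈ s, (m j : ℝ) :=
    Finset.prod_pos fun j hj => by exact_mod_cast hm0 j hj
  have hcpos : (0 : ℝ) < c := by
    have : 0 < c := by omega
    exact_mod_cast this
  have hrpos : (0 : ℝ) < r := by exact_mod_cast hr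
  have h1 := one_sub_sum_le s (fun j => ((m j - ρ j : ℕ) : ℝ) / m j)
    (fun j hj => by positivity) (fun j hj => by
      have : (0 : ℝ) < m j := by exact_mod_cast hm0 j hj
      rw [div_le_one this]
      exact_mod_cast Nat.sub_le _ _)
  have h2 : ∏ j ∈ s, ((m j - ρ j : ℕ) : ℝ) / m j =
      (∏ j ∈ s, ((m j - ρ j : ℕ) : ℝ)) / ∏ j ∈ s, (m j : ℝ) := Finset.prod_div_distrib _ _
  have h3 : (M : ℝ) * ∑ j ∈ s, (1 - ((m j - ρ j : ℕ) : ℝ) / m j) < r := by
    have h4 : ∀ j ∈ s, (M : ℝ) * (1 - ((m j - ρ j : ℕ) : ℝ) / m j) ≤ r / c := by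
      intro j hj
      have hmj : (0 : ℝ) < m j := by exact_mod_cast hm0 j hj
      have h5 : (m j : ℝ) - ρ j ≤ ((m j - ρ j : ℕ) : ℝ) := by
        have : m j ≤ (m j - ρ j) + ρ j := by omega
        have : (m j : ℝ) ≤ ((m j - ρ j : ℕ) : ℝ) + ρ j := by exact_mod_cast this
        linarith
      have h6 : 1 - ((m j - ρ j : ℕ) : ℝ) / m j ≤ ρ j / m j := by
        rw [sub_le_iff_le_add, ← add_div, le_div_iff₀ hmj]
        linarith
      have h7 : (c : ℝ) * M * ρ j ≤ m j * r := by exact_mod_cast hm j hj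
      calc (M : ℝ) * (1 - ((m j - ρ j : ℕ) : ℝ) / m j) ≤ M * (ρ j / m j) :=
            mul_le_mul_of_nonneg_left h6 (Nat.cast_nonneg _)
        _ = (M * ρ j) / m j := by ring
        _ ≤ r / c := by
          rw [div_le_div_iff₀ hmj hcpos]
          linarith
    rw [Finset.mul_sum]
    calc ∑ j ∈ s, (M : ℝ) * (1 - ((m j - ρ j : ℕ) : ℝ) / m j) ≤ ∑ j ∈ s, (r : ℝ) / c :=
          Finset.sum_le_sum h4
      _ = s.card * (r / c) := by rw [Finset.sum_const, nsmul_eq_mul]
      _ < c * (r / c) := by
          have : (s.card : ℝ) < c := by exact_mod_cast hc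
          exact mul_lt_mul_of_pos_right this (by positivity)
      _ = r := by field_simp
  have h8 : (M : ℝ) * ∏ j ∈ s, (m j : ℝ) <
      r * ∏ j ∈ s, (m j : ℝ) + M * ∏ j ∈ s, ((m j - ρ j : ℕ) : ℝ) := by
    rw [h2, le_div_iff₀ hP] at h1
    have hM : (0 : ℝ) ≤ M := Nat.cast_nonneg _
    have h9 := mul_le_mul_of_nonneg_left h1 hM
    have h10 := mul_lt_mul_of_pos_right h3 hP
    nlinarith
  exact_mod_cast h8

end Box

/-- (A) the window inequality -/
theorem window_ineq {K L : Type*} [Field K] [Field L] [Algebra K L]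
    {ι : Type*} [Fintype ι] [DecidableEq ι] (y : ι → L) (R : MvPolynomial ι K)
    (hR0 : R ≠ 0) (hR : aeval y R = 0)
    (hmin : ∀ (l : ι) (P : MvPolynomial ι K), P ≠ 0 → aeval y P = 0 →
      R.degreeOf l ≤ P.degreeOf l)
    (h : ι → ℝ) (h0 : ∀ j, 0 ≤ h j) (H : HeightIneq K y h) (l : ι) :
    (R.degreeOf l : ℝ) * h l ≤
      (Fintype.card ι : ℝ) * ∑ j ∈ Finset.univ.erase l, (R.degreeOf j : ℝ) * h j := by
  classical
  set ρ : ι → ℕ := fun j => R.degreeOf j with hρ
  set c := Fintype.card ι with hc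
  have hS0 : 0 ≤ ∑ j ∈ Finset.univ.erase l, (ρ j : ℝ) * h j :=
    Finset.sum_nonneg fun j _ => mul_nonneg (Nat.cast_nonneg _) (h0 j)
  rcases Nat.eq_zero_or_pos (ρ l) with hl | hl
  · show (ρ l : ℝ) * h l ≤ _
    rw [hl]
    simp only [Nat.cast_zero, zero_mul]
    exact mul_nonneg (Nat.cast_nonneg _) hS0
  have hcard : (Finset.univ.erase l).card < c := by
    rw [Finset.card_erase_of_mem (Finset.mem_univ l), Finset.card_univ]
    have : 0 < Fintype.card ι := Fintype.card_pos_iff.2 ⟨l⟩
    omega
  -- the inequality for every `M`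
  have key : ∀ M : ℕ, 1 ≤ M → (M : ℝ) * h l ≤ ρ l * h l +
      ∑ j ∈ Finset.univ.erase l, ((c : ℝ) * M * ρ j / ρ l + 1) * h j := by
    intro M hM
    let m : ι → ℕ := fun j => c * M * ρ j / ρ l + 1
    let b0 : ι → ℕ := fun j => if j = l then ρ l else m j
    let b1 : ι → ℕ := fun j => if j = l then M + ρ l else m j
    let b2 : ι → ℕ := fun j => if j = l then M else m j - ρ j
    have := finite_box (K := K) b0
    have := finite_box (K := K) b1
    have := finite_box (K := K) b2
    -- evaluation is injective on the small box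
    have hinj : ∀ P ∈ box K b0, aeval y P = 0 → P = 0 := by
      intro P hP hPy
      by_contra hP0
      have h1 := hmin l P hP0 hPy
      obtain ⟨s, hs⟩ := MvPolynomial.ne_zero_iff.1 hP0
      have h2 : P.degreeOf l ≤ ρ l - 1 := by
        rw [degreeOf_le_iff]
        intro s hs
        have h3 := mem_box.1 hP s hs l
        simp only [b0, if_true] at h3
        omega
      have h3 : ρ l ≤ P.degreeOf l := h1
      omega
    -- the image of the large box
    let ev : box K b1 →ₗ[K] L := (aeval y).toLinearMap.comp (box K b1).subtype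
    -- the kernel is large
    let mulR : box K b2 →ₗ[K] LinearMap.ker ev :=
      { toFun := fun Q => ⟨⟨R * Q.1, mul_mem_box (d := ρ) (fun j => le_rfl) Q.2 b1 (by
            intro j hj
            simp only [b1, b2] at hj ⊢
            split_ifs at hj ⊢ with h1
            · subst h1; omega
            · omega)⟩, by
            rw [LinearMap.mem_ker]
            show aeval y (R * Q.1) = 0
            rw [map_mul, hR, zero_mul]⟩
        map_add' := fun P Q => by
          apply Subtype.ext
          apply Subtype.ext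
          exact mul_add _ _ _
        map_smul' := fun a Q => by
          apply Subtype.ext
          apply Subtype.ext
          exact mul_smul_comm _ _ _ }
    have hmulR : Function.Injective mulR := by
      intro P Q hPQ
      have h1 : R * P.1 = R * Q.1 := congrArg (fun z => z.1.1) hPQ
      exact Subtype.ext (mul_left_cancel₀ hR0 h1)
    have hker : ∏ j, b2 j ≤ Module.finrank K (LinearMap.ker ev) := by
      rw [← finrank_box (K := K)]
      exact LinearMap.finrank_le_finrank_of_injective hmulR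
    have hrn := LinearMap.finrank_range_add_finrank_ker ev
    rw [finrank_box] at hrn
    -- the two copies of the small box
    have hmem0 : ∀ P ∈ box K b0, P ∈ box K b1 := by
      intro P hP
      rw [mem_box] at hP ⊢
      intro s hs j
      have := hP s hs j
      simp only [b0, b1] at this ⊢
      split_ifs at this ⊢ <;> omega
    have hmem1 : ∀ P ∈ box K b0, X l ^ M * P ∈ box K b1 := by
      intro P hP
      refine mul_mem_box (d := fun j => if j = l then M else 0) ?_ hP b1 ?_
      · intro j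
        refine (degreeOf_pow_le j (X l : MvPolynomial ι K) M).trans ?_
        rw [degreeOf_X]
        split_ifs <;> simp_all
      · intro j _
        simp only [b0, b1]
        split_ifs <;> omega
    let Φ : (box K b0 × box K b0) →ₗ[K] LinearMap.range ev :=
      { toFun := fun p => ⟨y l ^ M * aeval y p.1.1 - aeval y p.2.1,
          ⟨⟨X l ^ M * p.1.1 - p.2.1, sub_mem (hmem1 _ p.1.2) (hmem0 _ p.2.2)⟩, by
            show aeval y (X l ^ M * p.1.1 - p.2.1) = _
            rw [map_sub, map_mul, map_pow, aeval_X]⟩⟩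
        map_add' := fun p q => by
          apply Subtype.ext
          simp only [Prod.fst_add, Prod.snd_add, Submodule.coe_add, map_add]
          ring
        map_smul' := fun a p => by
          apply Subtype.ext
          simp only [Prod.smul_fst, Prod.smul_snd, Submodule.coe_smul, map_smul,
            RingHom.id_apply, smul_sub, mul_smul_comm] }
    have hlt : Module.finrank K (LinearMap.range ev) <
        Module.finrank K (box K b0 × box K b0) := by
      rw [Module.finrank_prod, finrank_box]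
      have h1 : ∏ j, b0 j = ρ l * ∏ j ∈ Finset.univ.erase l, m j := prod_ite l _ m
      have h2 : ∏ j, b1 j = (M + ρ l) * ∏ j ∈ Finset.univ.erase l, m j := prod_ite l _ m
      have h3 : ∏ j, b2 j = M * ∏ j ∈ Finset.univ.erase l, (m j - ρ j) := prod_ite l _ _
      have h4 := count_lt (s := Finset.univ.erase l) M (ρ l) c hl hcard ρ m
        (fun j _ => Nat.succ_pos _) (fun j _ => by
          have := Nat.lt_div_mul_add (a := c * M * ρ j) hl
          show c * M * ρ j ≤ (c * M * ρ j / ρ l + 1) * ρ l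
          rw [add_mul, one_mul]
          exact this.le)
      rw [h1]
      rw [h2] at hrn
      rw [h3] at hker
      rw [add_mul] at hrn
      omega
    have hkerΦ := LinearMap.ker_ne_bot_of_finrank_lt hlt (f := Φ)
    obtain ⟨p, hp, hp0⟩ := Submodule.exists_mem_ne_zero_of_ne_bot hkerΦ
    have hrel : y l ^ M * aeval y p.1.1 = aeval y p.2.1 := by
      have h1 : Φ p = 0 := hp
      have h2 : y l ^ M * aeval y p.1.1 - aeval y p.2.1 = 0 := congrArg Subtype.val h1
      exact sub_eq_zero.1 h2
    have hne : aeval y p.1.1 ≠ 0 := by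
      intro h1
      have h2 : p.1 = 0 := Subtype.ext (hinj _ p.1.2 h1)
      rw [h1, mul_zero] at hrel
      have h3 : p.2 = 0 := Subtype.ext (hinj _ p.2.2 hrel.symm)
      exact hp0 (Prod.ext h2 h3)
    have hH := H l M b0 p.1.1 p.2.1 (degreeOf_le_of_mem_box p.1.2)
      (degreeOf_le_of_mem_box p.2.2) hne hrel
    rw [← Finset.add_sum_erase Finset.univ _ (Finset.mem_univ l)] at hH
    refine hH.trans ?_
    have h1 : ((b0 l : ℕ) : ℝ) = ρ l := by simp [b0]
    rw [h1]
    refine add_le_add le_rfl (Finset.sum_le_sum fun j hj => ?_)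
    have h2 : b0 j = m j := if_neg (Finset.ne_of_mem_erase hj)
    rw [h2]
    refine mul_le_mul_of_nonneg_right ?_ (h0 j)
    have h3 : ((c * M * ρ j / ρ l : ℕ) : ℝ) ≤ ((c * M * ρ j : ℕ) : ℝ) / ρ l :=
      Nat.cast_div_le
    show ((c * M * ρ j / ρ l + 1 : ℕ) : ℝ) ≤ _
    push_cast at h3 ⊢
    linarith
  -- let `M` tend to infinity
  have hρl : (0 : ℝ) < ρ l := by exact_mod_cast hl
  set S := ∑ j ∈ Finset.univ.erase l, (ρ j : ℝ) * h j with hS
  set T := ∑ j ∈ Finset.univ.erase l, h j with hT
  have key2 : ∀ M : ℕ, 1 ≤ M → (ρ l : ℝ) * h l - c * S ≤ (ρ l * (ρ l * h l + T)) / M := by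
    intro M hM
    have h1 := key M hM
    have hM' : (0 : ℝ) < M := by exact_mod_cast hM
    have h2 : ∑ j ∈ Finset.univ.erase l, ((c : ℝ) * M * ρ j / ρ l + 1) * h j =
        c * M / ρ l * S + T := by
      rw [hS, hT, Finset.mul_sum, ← Finset.sum_add_distrib]
      refine Finset.sum_congr rfl fun j _ => ?_
      ring
    rw [h2] at h1
    rw [le_div_iff₀ hM']
    have h3 : (M : ℝ) * h l * ρ l ≤ (ρ l * h l + (c * M / ρ l * S + T)) * ρ l :=
      mul_le_mul_of_nonneg_right h1 hρl.le
    have h4 : (c * M / ρ l * S) * ρ l = c * M * S := by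
      field_simp
    nlinarith
  have hlim : Filter.Tendsto (fun M : ℕ => (ρ l * (ρ l * h l + T)) / (M : ℝ)) Filter.atTop
      (nhds 0) := tendsto_const_div_atTop_nhds_zero_nat _
  have h5 : (ρ l : ℝ) * h l - c * S ≤ 0 := ge_of_tendsto hlim
    (Filter.eventually_atTop.2 ⟨1, fun M hM => key2 M hM⟩)
  linarith

end Pool.Agent.H22
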