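import Mathlib
import Pool.Agent.H22.Defs
import Pool.Agent.H22.Window
import Pool.Agent.H22.CurveMain

/-!
Claim A, by choosing a good transcendence basis.
-/

set_option autoImplicit false

namespace Pool.Agent.H22

open MvPolynomial

section Trans

variable {F L : Type*} [Field F] [Field L] [Algebra F L]

/-- If `L / F` has a transcendence basis with `k` elements and is finitely generated, then it is
finite over the field generated by `k - 1` algebraically independent elements and an element that
is transcendental over them. -/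
lemma finite_of_basis {k : ℕ} {b : Fin k → L} (hb : IsTranscendenceBasis F b)
    {r : ℕ} (x : Fin r → L) (hx : IntermediateField.adjoin F (Set.range x) = ⊤)
    (y : ℕ → L) (Z : Finset ℕ) (hZ : Z.card + 1 = k) (hind : AlgebraicIndepOn F y (Z : Set ℕ))
    (t : L) (ht : Transcendental (IntermediateField.adjoin F (y '' (Z : Set ℕ))) t) :
    FiniteDimensional
      (IntermediateField.adjoin (IntermediateField.adjoin F (y '' (Z : Set ℕ))) {t}) L := by
  set A := y '' (Z : Set ℕ) with hA
  have hrange0 : Set.range (fun i : (Z : Set ℕ) => y i) = A := (Set.image_eq_range _ _).symm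
  have h1 : AlgebraicIndependent F (fun o : Option (Z : Set ℕ) => o.elim t (fun i => y i)) := by
    rw [AlgebraicIndependent.option_iff]
    refine ⟨hind, ?_⟩
    rw [hrange0]
    exact IntermediateField.transcendental_adjoin_iff.1 ht
  have hcard : Cardinal.mk (Option (Z : Set ℕ)) = (k : Cardinal) := by
    rw [Cardinal.mk_option, ← hZ]
    simp
  have h2 : IsTranscendenceBasis F (fun o : Option (Z : Set ℕ) => o.elim t (fun i => y i)) := by
    refine h1.isTranscendenceBasis_of_lift_trdeg_le_of_finite ?_
    rw [← hb.lift_cardinalMk_eq_trdeg, hcard]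
    simp
  have h3 := h2.isAlgebraic_field
  have hrange : Set.range (fun o : Option (Z : Set ℕ) => o.elim t (fun i => y i)) = A ∪ {t} := by
    ext z
    simp only [Set.mem_range, Set.mem_union, Set.mem_singleton_iff, hA, Set.mem_image]
    constructor
    · rintro ⟨_ | i, rfl⟩
      · exact Or.inr rfl
      · exact Or.inl ⟨i, i.2, rfl⟩
    · rintro (⟨i, hi, rfl⟩ | rfl)
      · exact ⟨some ⟨i, hi⟩, rfl⟩
      · exact ⟨none, rfl⟩
  rw [hrange, ← IntermediateField.adjoin_adjoin_left] at h3
  have h5 : Algebra.IsAlgebraic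
      (IntermediateField.adjoin (IntermediateField.adjoin F A) {t}) L := h3
  set E' := IntermediateField.adjoin (IntermediateField.adjoin F A) {t} with hE'
  have : IsScalarTower F E' L := IsScalarTower.of_algebraMap_eq fun _ => rfl
  have h6 : IntermediateField.adjoin E' (Set.range x) = ⊤ := by
    rw [eq_top_iff]
    intro z _
    have hz : z ∈ IntermediateField.adjoin F (Set.range x) := by rw [hx]; trivial
    have hle : IntermediateField.adjoin F (Set.range x) ≤
        (IntermediateField.adjoin E' (Set.range x)).restrictScalars F :=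
      IntermediateField.adjoin_le_iff.2 (IntermediateField.subset_adjoin E' (Set.range x))
    exact hle hz
  have h7 : FiniteDimensional E' (IntermediateField.adjoin E' (Set.range x)) :=
    IntermediateField.finiteDimensional_adjoin fun z _ => (h5.isAlgebraic z).isIntegral
  rw [h6] at h7
  exact Module.Finite.equiv (IntermediateField.topEquiv (F := E') (E := L)).toLinearEquiv

lemma indep_insert_iff (y : ℕ → L) (Z : Finset ℕ) (s : ℕ) (hs : s ∉ Z) :
    AlgebraicIndepOn F y ((insert s Z : Finset ℕ) : Set ℕ) ↔
      AlgebraicIndepOn F y (Z : Set ℕ) ∧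
        Transcendental (IntermediateField.adjoin F (y '' (Z : Set ℕ))) (y s) := by
  rw [Finset.coe_insert, AlgebraicIndepOn.insert_iff (by exact_mod_cast hs),
    IntermediateField.transcendental_adjoin_iff]

end Trans

/-- The height inequality for a larger field of constants implies the one for a smaller one. -/
lemma HeightIneq.restrict {K E L : Type*} [Field K] [Field E] [Field L] [Algebra K E]
    [Algebra E L] [Algebra K L] [IsScalarTower K E L] {ι : Type*} [Fintype ι] {y : ι → L}
    {h : ι → ℝ} (H : HeightIneq E y h) : HeightIneq K y h := by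
  intro l M m P P' hP hP' hne heq
  have hdeg : ∀ Q : MvPolynomial ι K, ∀ j, (map (algebraMap K E) Q).degreeOf j ≤ Q.degreeOf j := by
    intro Q j
    rw [degreeOf_le_iff]
    intro s hs
    exact degreeOf_le_iff.1 le_rfl s (support_map_subset _ _ hs)
  refine H l M m (map (algebraMap K E) P) (map (algebraMap K E) P')
    (fun j => (hdeg P j).trans (hP j)) (fun j => (hdeg P' j).trans (hP' j)) ?_ ?_
  · rwa [aeval_map_algebraMap]
  · rwa [aeval_map_algebraMap, aeval_map_algebraMap]

/-- The height of an element that is a quotient of two polynomials in the generators. -/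
lemma height_le {K L : Type*} [Field K] [Field L] [Algebra K L] {r : ℕ} (x : Fin r → L)
    (H : L → ℝ)
    (hH : ∀ v : L, HeightIneq K (fun o : Option (Fin r) => o.elim v x)
      (fun o => H (o.elim v x)))
    (v : L) (d : ℕ) (P Q : MvPolynomial (Fin r) K) (hP : P.totalDegree ≤ d)
    (hQ : Q.totalDegree ≤ d) (hQ0 : aeval x Q ≠ 0) (hv : v * aeval x Q = aeval x P) :
    H v ≤ d * ∑ i, H (x i) := by
  have hdeg : ∀ W : MvPolynomial (Fin r) K, W.totalDegree ≤ d → ∀ j : Option (Fin r),
      (rename some W).degreeOf j ≤ (fun o : Option (Fin r) => o.elim 0 fun _ => d) j := by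
    intro W hW j
    rcases j with _ | i
    · simp only [Option.elim_none, Nat.le_zero]
      rw [← Nat.le_zero, degreeOf_le_iff]
      intro s hs
      rw [support_rename_of_injective (Option.some_injective _), Finset.mem_image] at hs
      obtain ⟨u, _, rfl⟩ := hs
      rw [Finsupp.mapDomain_of_notMem_range _ _ (by simp)]
    · rw [degreeOf_rename_of_injective (Option.some_injective _)]
      exact (degreeOf_le_totalDegree _ _).trans hW
  have haev : ∀ W : MvPolynomial (Fin r) K,
      aeval (fun o : Option (Fin r) => o.elim v x) (rename some W) = aeval x W := by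
    intro W
    rw [aeval_rename]
    rfl
  have h1 := hH v none 1 (fun o => o.elim 0 fun _ => d) (rename some Q) (rename some P)
    (hdeg Q hQ) (hdeg P hP) (by rwa [haev]) (by rw [haev, haev, pow_one]; exact hv)
  rw [Fintype.sum_option] at h1
  simp only [Option.elim_none, Option.elim_some, Nat.cast_one, one_mul, Nat.cast_zero, zero_mul,
    zero_add] at h1
  rw [Finset.mul_sum]
  exact h1

/-- Algebraically independent elements are a transcendence basis over an intermediate field. -/
lemma exists_basis {K L : Type*} [Field K] [Field L] [Algebra K L] {k : ℕ} (y : Fin k → L)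
    (hind : AlgebraicIndependent K y) :
    ∃ U : Set L, IsTranscendenceBasis (IntermediateField.adjoin K U) y := by
  obtain ⟨T, hT1, hT2⟩ := exists_isTranscendenceBasis_superset (R := K) (A := L)
    (s := Set.range y) hind.to_subtype_range
  let U : Set L := T \ Set.range y
  let g : Fin k ⊕ U → L := Sum.elim y Subtype.val
  have hg : Function.Injective g := by
    rintro (a | a) (b | b) h
    · exact congrArg Sum.inl (hind.injective h)
    · exact (b.2.2 ⟨a, h⟩).elim
    · exact (a.2.2 ⟨b, h.symm⟩).elim
    · exact congrArg Sum.inr (Subtype.ext h)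
  have hrange : Set.range g = T := by
    rw [Set.Sum.elim_range, Subtype.range_coe]
    exact Set.union_sdiff_cancel hT1
  have hbasis : IsTranscendenceBasis K g := by
    rw [← isTranscendenceBasis_subtype_range hg, hrange]
    exact hT2
  refine ⟨U, ?_⟩
  rw [isTranscendenceBasis_iff_algebraicIndependent_isAlgebraic]
  constructor
  · rw [IntermediateField.algebraicIndependent_adjoin_iff]
    have h1 := (AlgebraicIndependent.sumElim_iff.1 hbasis.1).2
    rwa [Subtype.range_coe] at h1
  · rw [← IntermediateField.isAlgebraic_adjoin_iff_top]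
    have h2 := hbasis.isAlgebraic_field
    have h3 : Set.range g = U ∪ Set.range y := by
      rw [Set.Sum.elim_range, Subtype.range_coe, Set.union_comm]
    rw [h3, ← IntermediateField.adjoin_adjoin_left] at h2
    exact h2

/-- (G) Claim A -/
theorem claimA {K L : Type*} [Field K] [Infinite K] [Field L] [Algebra K L]
    {r : ℕ} (x : Fin r → L) (hx : IntermediateField.adjoin K (Set.range x) = ⊤)
    {k : ℕ} (hk : 1 ≤ k) (y : ℕ → L) (hind : AlgebraicIndependent K (fun i : Fin k => y i))
    (R : MvPolynomial (Fin (k + 1)) K) (hR0 : R ≠ 0)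
    (hR : ∀ n : ℕ, aeval (fun j : Fin (k + 1) => y (n + j)) R = 0)
    (hmin : ∀ (n : ℕ) (l : Fin (k + 1)) (P : MvPolynomial (Fin (k + 1)) K), P ≠ 0 →
      aeval (fun j : Fin (k + 1) => y (n + j)) P = 0 → R.degreeOf l ≤ P.degreeOf l)
    (D : ℕ → ℕ) (hD : ∀ n, ∃ P Q : MvPolynomial (Fin r) K, P.totalDegree ≤ D n ∧
      Q.totalDegree ≤ D n ∧ aeval x Q ≠ 0 ∧ y n * aeval x Q = aeval x P)
    (B : ℝ) (hB0 : 0 < B)
    (hlim : Filter.Tendsto (fun n => (D n : ℝ) / B ^ n) Filter.atTop (nhds 0))
    (i : Fin (k + 1)) (hi : (i : ℕ) < k) :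
    (R.degreeOf i : ℝ) * B ^ (i : ℕ) ≤
      ((k + 1 : ℕ) : ℝ) * ∑ j ∈ Finset.univ.erase i, (R.degreeOf j : ℝ) * B ^ (j : ℕ) := by
  classical
  obtain ⟨U, hb⟩ := exists_basis (fun i : Fin k => y i) hind
  set F := IntermediateField.adjoin K U with hF
  have hxF : IntermediateField.adjoin F (Set.range x) = ⊤ := by
    rw [eq_top_iff]
    intro z _
    have hz : z ∈ IntermediateField.adjoin K (Set.range x) := by rw [hx]; trivial
    have hle : IntermediateField.adjoin K (Set.range x) ≤
        (IntermediateField.adjoin F (Set.range x)).restrictScalars K :=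
      IntermediateField.adjoin_le_iff.2 (IntermediateField.subset_adjoin F (Set.range x))
    exact hle hz
  -- good sets of indices
  let Good : Finset ℕ → Prop := fun S => S.card = k ∧ AlgebraicIndepOn F y (S : Set ℕ)
  let cnt : Finset ℕ → ℕ := fun S => (S.filter fun s => (i : ℕ) ≤ s).card
  have hgood0 : Good (Finset.range k) := by
    refine ⟨Finset.card_range k, ?_⟩
    exact hb.1.comp (fun s : ((Finset.range k : Finset ℕ) : Set ℕ) =>
      (⟨s.1, Finset.mem_range.1 s.2⟩ : Fin k)) fun a b hab => Subtype.ext (Fin.mk.inj hab)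
  obtain ⟨S, hS, hSmin⟩ : ∃ S, Good S ∧ ∀ S', Good S' → cnt S ≤ cnt S' := by
    have hP : ∃ n, ∃ S, Good S ∧ cnt S = n := ⟨_, Finset.range k, hgood0, rfl⟩
    obtain ⟨S, hS, hn⟩ := Nat.find_spec hP
    exact ⟨S, hS, fun S' hS' => hn ▸ Nat.find_min' hP ⟨S', hS', rfl⟩⟩
  obtain ⟨s, hsS, his⟩ : ∃ s ∈ S, (i : ℕ) ≤ s := by
    by_contra hcon
    push Not at hcon
    have h1 : S ⊆ Finset.range i := fun s hs => Finset.mem_range.2 (hcon s hs)
    have h2 := Finset.card_le_card h1
    rw [hS.1, Finset.card_range] at h2
    omega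
  set Z := S.erase s with hZdef
  have hsZ : s ∉ Z := Finset.notMem_erase s S
  have hSZ : insert s Z = S := Finset.insert_erase hsS
  have hZcard : Z.card + 1 = k := by
    rw [hZdef, Finset.card_erase_of_mem hsS, hS.1]
    omega
  have hSind := hS.2
  rw [← hSZ, indep_insert_iff y Z s hsZ] at hSind
  obtain ⟨hZind, hstr⟩ := hSind
  set E := IntermediateField.adjoin F (y '' (Z : Set ℕ)) with hE
  have hcurve : ∀ t : L, Transcendental E t →
      FiniteDimensional (IntermediateField.adjoin E {t}) L := fun t ht =>
    finite_of_basis hb x hxF y Z hZcard hZind t ht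
  have hFinf : Infinite F := Infinite.of_injective (algebraMap K F) (algebraMap K F).injective
  have hEinf : Infinite E := Infinite.of_injective (algebraMap F E) (algebraMap F E).injective
  have htower : IsScalarTower K E L := IsScalarTower.of_algebraMap_eq fun _ => rfl
  -- the height
  let H : L → ℝ := fun v => (Module.finrank (IntermediateField.adjoin E {v}) L : ℝ)
  have hH0 : ∀ v, 0 ≤ H v := fun v => Nat.cast_nonneg _
  have hHI : ∀ {ι : Type} [Fintype ι] (f : ι → L), HeightIneq K f (fun j => H (f j)) := by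
    intro ι _ f
    exact (curve_heightIneq ⟨y s, hstr⟩ hcurve f).restrict
  set C := ∑ j, H (x j) with hC
  have hbound : ∀ n, H (y n) ≤ D n * C := by
    intro n
    obtain ⟨P, Q, hP, hQ, hQ0, hPQ⟩ := hD n
    exact height_le x H (fun v => hHI _) (y n) (D n) P Q hP hQ hQ0 hPQ
  let u : ℕ → ℝ := fun n => H (y n) / B ^ n
  have hBn : ∀ n, 0 < B ^ n := fun n => pow_pos hB0 n
  have hu0 : Filter.Tendsto u Filter.atTop (nhds 0) := by
    have h1 : Filter.Tendsto (fun n => (D n : ℝ) / B ^ n * C) Filter.atTop (nhds 0) := by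
      simpa using hlim.mul_const C
    refine squeeze_zero (fun n => div_nonneg (hH0 _) (hBn n).le) (fun n => ?_) h1
    show H (y n) / B ^ n ≤ (D n : ℝ) / B ^ n * C
    rw [div_mul_eq_mul_div]
    exact div_le_div_of_nonneg_right (hbound n) (hBn n).le
  have hus : 0 < u s := by
    have := hcurve (y s) hstr
    have h1 : 0 < Module.finrank (IntermediateField.adjoin E {y s}) L := Module.finrank_pos
    have h2 : (0 : ℝ) < (Module.finrank (IntermediateField.adjoin E {y s}) L : ℝ) :=
      Nat.cast_pos.2 h1
    exact div_pos h2 (hBn s)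
  -- the maximum
  obtain ⟨m, hm⟩ : ∃ m, ∀ n, u n ≤ u m := by
    have h1 : ∀ᶠ n in Filter.atTop, u n < u s := hu0.eventually_lt_const hus
    obtain ⟨N, hN⟩ := Filter.eventually_atTop.1 h1
    obtain ⟨m, _, hm⟩ := Finset.exists_max_image (Finset.range (max N s + 1)) u
      ⟨s, Finset.mem_range.2 (by omega)⟩
    refine ⟨m, fun n => ?_⟩
    rcases le_or_gt N n with h2 | h2
    · exact (hN n h2).le.trans (hm s (Finset.mem_range.2 (by omega)))
    · exact hm n (Finset.mem_range.2 (by omega))
  have hum : 0 < u m := hus.trans_le (hm s)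
  have hHm : 0 < H (y m) := by
    have h1 : H (y m) = u m * B ^ m := (div_mul_cancel₀ _ (hBn m).ne').symm
    rw [h1]
    exact mul_pos hum (hBn m)
  rcases le_or_gt (i : ℕ) m with him | him
  · -- the window
    have hw := window_ineq (fun j : Fin (k + 1) => y (m - i + j)) R hR0 (hR (m - i))
      (hmin (m - i)) (fun j => H (y (m - i + j))) (fun j => hH0 _) (hHI _) i
    rw [Fintype.card_fin] at hw
    have hle : ∀ j : Fin (k + 1), H (y (m - i + j)) ≤ u m * B ^ (m - (i : ℕ)) * B ^ (j : ℕ) := by
      intro j
      have h1 := hm (m - i + j)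
      have h2 : H (y (m - i + j)) ≤ u m * B ^ (m - (i : ℕ) + (j : ℕ)) :=
        (div_le_iff₀ (hBn _)).1 h1
      rw [pow_add, ← mul_assoc] at h2
      exact h2
    have heq : H (y (m - i + i)) = u m * B ^ (m - (i : ℕ)) * B ^ (i : ℕ) := by
      have h1 : m - (i : ℕ) + i = m := Nat.sub_add_cancel him
      rw [h1, mul_assoc, ← pow_add, h1]
      exact (div_mul_cancel₀ _ (hBn m).ne').symm
    have hpos : 0 < u m * B ^ (m - (i : ℕ)) := mul_pos hum (hBn _)
    have h3 : (R.degreeOf i : ℝ) * (u m * B ^ (m - (i : ℕ)) * B ^ (i : ℕ)) ≤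
        ((k + 1 : ℕ) : ℝ) * ∑ j ∈ Finset.univ.erase i,
          (R.degreeOf j : ℝ) * (u m * B ^ (m - (i : ℕ)) * B ^ (j : ℕ)) := by
      rw [← heq]
      refine hw.trans (mul_le_mul_of_nonneg_left ?_ (Nat.cast_nonneg _))
      exact Finset.sum_le_sum fun j _ => mul_le_mul_of_nonneg_left (hle j) (Nat.cast_nonneg _)
    have h4 : ∑ j ∈ Finset.univ.erase i,
        (R.degreeOf j : ℝ) * (u m * B ^ (m - (i : ℕ)) * B ^ (j : ℕ)) =
        (u m * B ^ (m - (i : ℕ))) * ∑ j ∈ Finset.univ.erase i,
          (R.degreeOf j : ℝ) * B ^ (j : ℕ) := by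
      rw [Finset.mul_sum]
      exact Finset.sum_congr rfl fun j _ => by ring
    rw [h4] at h3
    have h5 : (u m * B ^ (m - (i : ℕ))) * ((R.degreeOf i : ℝ) * B ^ (i : ℕ)) ≤
        (u m * B ^ (m - (i : ℕ))) * (((k + 1 : ℕ) : ℝ) * ∑ j ∈ Finset.univ.erase i,
          (R.degreeOf j : ℝ) * B ^ (j : ℕ)) := by
      calc _ = (R.degreeOf i : ℝ) * (u m * B ^ (m - (i : ℕ)) * B ^ (i : ℕ)) := by ring
        _ ≤ _ := h3
        _ = _ := by ring
    exact le_of_mul_le_mul_left h5 hpos
  · -- a better set of indices
    exfalso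
    have hfin : FiniteDimensional (IntermediateField.adjoin E {y m}) L :=
      FiniteDimensional.of_finrank_pos (Nat.cast_pos.1 hHm)
    have hmtr : Transcendental E (y m) := by
      intro halg
      have h1 : Algebra.IsAlgebraic E (IntermediateField.adjoin E {y m}) :=
        IntermediateField.isAlgebraic_adjoin_simple halg.isIntegral
      have h2 : Algebra.IsAlgebraic (IntermediateField.adjoin E {y m}) L :=
        Algebra.IsAlgebraic.of_finite _ _
      have h3 : Algebra.IsAlgebraic E L :=
        Algebra.IsAlgebraic.trans E (IntermediateField.adjoin E {y m}) L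
      exact hstr (h3.isAlgebraic (y s))
    have hmZ : m ∉ Z := by
      intro h1
      have h2 : y m ∈ E := IntermediateField.subset_adjoin _ _ ⟨m, h1, rfl⟩
      exact hmtr (isAlgebraic_algebraMap (⟨y m, h2⟩ : E))
    have hgood : Good (insert m Z) := by
      refine ⟨by rw [Finset.card_insert_of_notMem hmZ, hZcard], ?_⟩
      rw [indep_insert_iff y Z m hmZ]
      exact ⟨hZind, hmtr⟩
    have h1 := hSmin _ hgood
    have h2 : cnt (insert m Z) = cnt Z := by
      show ((insert m Z).filter fun s => (i : ℕ) ≤ s).card = (Z.filter fun s => (i : ℕ) ≤ s).card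
      rw [Finset.filter_insert, if_neg (by omega)]
    have h3 : cnt S = cnt Z + 1 := by
      show (S.filter fun s => (i : ℕ) ≤ s).card = (Z.filter fun s => (i : ℕ) ≤ s).card + 1
      rw [← hSZ, Finset.filter_insert, if_pos his, Finset.card_insert_of_notMem]
      · simp [hsZ]
    omega

end Pool.Agent.H22
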