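import Mathlib
import Pool.Agent.H22.Defs

set_option autoImplicit false

namespace Pool.Agent.H22

open MvPolynomial

section homog

variable {K : Type*} [Field K] {σ : Type*}

lemma aeval_mul_homog {A : Type*} [CommRing A] [Algebra K A] (x : σ → A) (c : A)
    {p : MvPolynomial σ K} {e : ℕ} (hp : p.IsHomogeneous e) :
    aeval (fun i => c * x i) p = c ^ e * aeval x p := by
  rw [aeval_def, aeval_def, eval₂_eq, eval₂_eq, Finset.mul_sum]
  apply Finset.sum_congr rfl
  intro d hd
  have h1 : d.degree = e := by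
    by_contra hcon
    rw [mem_support_iff] at hd
    exact hd (hp.coeff_eq_zero hcon)
  have h2 : ∏ i ∈ d.support, (c * x i) ^ d i = c ^ e * ∏ i ∈ d.support, x i ^ d i := by
    simp only [mul_pow]
    rw [Finset.prod_mul_distrib, Finset.prod_pow_eq_pow_sum, ← h1]
    rfl
  rw [h2]
  ring

lemma isUnit_of_totalDegree_eq_zero {p : MvPolynomial σ K} (hp0 : p ≠ 0)
    (hp : p.totalDegree = 0) : IsUnit p := by
  rw [totalDegree_eq_zero_iff_eq_C] at hp
  rw [hp]
  apply IsUnit.map
  rw [isUnit_iff_ne_zero]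
  intro h
  apply hp0
  rw [hp, h, C_0]

end homog

section iter

variable {K : Type*} [Field K] {N : ℕ} (f : Fin (N + 1) → MvPolynomial (Fin (N + 1)) K)

/-- the (unreduced) iterates, as in the frozen statement -/
noncomputable def iter (n : ℕ) : Fin (N + 1) → MvPolynomial (Fin (N + 1)) K :=
  (fun h : Fin (N + 1) → MvPolynomial (Fin (N + 1)) K => fun j => bind₁ h (f j))^[n]
    MvPolynomial.X

lemma iter_succ (n : ℕ) (j : Fin (N + 1)) : iter f (n + 1) j = bind₁ (iter f n) (f j) := by
  unfold iter
  rw [Function.iterate_succ_apply']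

lemma bind_iter (n : ℕ) (p : MvPolynomial (Fin (N + 1)) K) :
    bind₁ (iter f n) p = (bind₁ f)^[n] p := by
  induction n generalizing p with
  | zero =>
    have : iter f 0 = X := rfl
    rw [this, bind₁_X_left]
    rfl
  | succ n ih =>
    have h1 : iter f (n + 1) = fun j => bind₁ (iter f n) (f j) := funext (iter_succ f n)
    rw [h1, ← bind₁_bind₁, ih, Function.iterate_succ_apply]

lemma iter_eq (n : ℕ) (j : Fin (N + 1)) : iter f n j = (bind₁ f)^[n] (X j) := by
  rw [← bind_iter, bind₁_X_right]

/-- the set of possible degrees of representatives of the `n`-th iterate -/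
def degSet (n : ℕ) : Set ℕ :=
  {e : ℕ | ∃ (g : Fin (N + 1) → MvPolynomial (Fin (N + 1)) K)
      (c : MvPolynomial (Fin (N + 1)) K), c ≠ 0 ∧ (∀ i, iter f n i = c * g i) ∧
      ∀ i, (g i).totalDegree ≤ e}

lemma degSet_nonempty (n : ℕ) : (degSet f n).Nonempty := by
  refine ⟨Finset.univ.sup (fun i => (iter f n i).totalDegree), iter f n, 1, one_ne_zero, ?_, ?_⟩
  · intro i; rw [one_mul]
  · intro i
    exact Finset.le_sup (f := fun i => (iter f n i).totalDegree) (Finset.mem_univ i)

lemma reduced (n : ℕ) : ∃ (g : Fin (N + 1) → MvPolynomial (Fin (N + 1)) K)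
      (c : MvPolynomial (Fin (N + 1)) K), c ≠ 0 ∧ (∀ i, iter f n i = c * g i) ∧
      (∀ i, (g i).totalDegree ≤ sInf (degSet f n)) ∧
      (0 < sInf (degSet f n) → (∀ p, (∀ i, p ∣ g i) → IsUnit p) ∧
        ∃ i, g i ≠ 0 ∧ (g i).totalDegree = sInf (degSet f n)) := by
  obtain ⟨g, c, hc, hg, hdeg⟩ := Nat.sInf_mem (degSet_nonempty f n)
  set e := sInf (degSet f n) with he
  refine ⟨g, c, hc, hg, hdeg, fun hpos => ⟨?_, ?_⟩⟩
  · intro p hp
    by_contra hunit
    choose g' hg' using hp
    by_cases hp0 : p = 0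
    · have h1 : (0 : ℕ) ∈ degSet f n := by
        refine ⟨fun _ => 0, c, hc, fun i => ?_, fun i => by simp⟩
        rw [hg, hg', hp0, zero_mul]
      have := Nat.sInf_le h1
      omega
    have hpdeg : 1 ≤ p.totalDegree := by
      by_contra h
      exact hunit (isUnit_of_totalDegree_eq_zero hp0 (by omega))
    have h1 : e - 1 ∈ degSet f n := by
      refine ⟨g', c * p, mul_ne_zero hc hp0, fun i => ?_, fun i => ?_⟩
      · rw [hg, hg', mul_assoc]
      · by_cases hi : g' i = 0
        · rw [hi]; simp
        · have h2 := hdeg i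
          rw [hg', totalDegree_mul_of_isDomain hp0 hi] at h2
          omega
    have := Nat.sInf_le h1
    omega
  · by_contra hcon
    push Not at hcon
    have h1 : e - 1 ∈ degSet f n := by
      refine ⟨g, c, hc, hg, fun i => ?_⟩
      by_cases hi : g i = 0
      · rw [hi]; simp
      · have h2 := hdeg i
        have h3 := hcon i hi
        omega
    have := Nat.sInf_le h1
    omega

end iter

end Pool.Agent.H22
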