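import Mathlib
import Pool.Agent.H22.Dyn

set_option autoImplicit false

namespace Pool.Agent.H22

open MvPolynomial

section homog2

variable {K : Type*} [Field K] {N : ℕ}

lemma iter_homog (f : Fin (N + 1) → MvPolynomial (Fin (N + 1)) K) (d : ℕ)
    (hf : ∀ i, (f i).IsHomogeneous d) (n : ℕ) :
    ∃ e, ∀ i, (iter f n i).IsHomogeneous e := by
  induction n with
  | zero =>
    refine ⟨1, fun i => ?_⟩
    exact isHomogeneous_X K i
  | succ n ih =>
    obtain ⟨e, he⟩ := ih
    refine ⟨e * d, fun i => ?_⟩
    rw [iter_succ]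
    exact (hf i).aeval _ he

variable {L : Type*} [Field L] [Algebra (MvPolynomial (Fin (N + 1)) K) L] [Algebra K L]
  [IsScalarTower K (MvPolynomial (Fin (N + 1)) K) L]
  [IsFractionRing (MvPolynomial (Fin (N + 1)) K) L]

lemma ratio_mem {e : ℕ} {A B : MvPolynomial (Fin (N + 1)) K} (hA : A.IsHomogeneous e)
    (hB : B.IsHomogeneous e) :
    algebraMap _ L A / algebraMap _ L B ∈ IntermediateField.adjoin K (Set.range
      (fun i : Fin N => algebraMap (MvPolynomial (Fin (N + 1)) K) L (X i.succ) /
        algebraMap (MvPolynomial (Fin (N + 1)) K) L (X 0))) := by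
  set F := IntermediateField.adjoin K (Set.range
      (fun i : Fin N => algebraMap (MvPolynomial (Fin (N + 1)) K) L (X i.succ) /
        algebraMap (MvPolynomial (Fin (N + 1)) K) L (X 0))) with hF
  set x0 : L := algebraMap (MvPolynomial (Fin (N + 1)) K) L (X 0) with hx0
  have hinj : Function.Injective (algebraMap (MvPolynomial (Fin (N + 1)) K) L) :=
    IsFractionRing.injective _ _
  have hx0ne : x0 ≠ 0 := by
    rw [hx0]
    intro h
    have : (X 0 : MvPolynomial (Fin (N + 1)) K) = 0 := by
      apply hinj
      rw [h, map_zero]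
    exact X_ne_zero 0 this
  set t : Fin (N + 1) → L := fun i => algebraMap (MvPolynomial (Fin (N + 1)) K) L (X i) / x0
    with ht
  have key : ∀ p : MvPolynomial (Fin (N + 1)) K, p.IsHomogeneous e →
      algebraMap _ L p = x0 ^ e * aeval t p := by
    intro p hp
    rw [← aeval_mul_homog t x0 hp]
    have h1 : (fun i => x0 * t i) =
        fun i => algebraMap (MvPolynomial (Fin (N + 1)) K) L (X i) := by
      funext i
      rw [ht]
      field_simp
    rw [h1]
    have h2 := aeval_algebraMap_apply (A := MvPolynomial (Fin (N + 1)) K) L (X : Fin (N + 1) → _) p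
    rw [aeval_X_left_apply] at h2
    rw [← h2]
    rfl
  have hmem : ∀ p : MvPolynomial (Fin (N + 1)) K, aeval t p ∈ F := by
    intro p
    have h1 : ∀ i, t i ∈ F := by
      intro i
      refine Fin.cases ?_ (fun j => ?_) i
      · rw [ht]
        simp only
        rw [← hx0, div_self hx0ne]
        exact one_mem _
      · exact IntermediateField.subset_adjoin _ _ ⟨j, rfl⟩
    have h2 := aeval_algebraMap_apply (A := F) L (fun i => (⟨t i, h1 i⟩ : F)) p
    have h3 : (fun i => algebraMap F L (⟨t i, h1 i⟩ : F)) = t := rfl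
    have h4 : (algebraMap F L ∘ fun i => (⟨t i, h1 i⟩ : F)) = t := rfl
    rw [h4] at h2
    rw [h2]
    exact Subtype.mem _
  rw [key A hA, key B hB, mul_div_mul_left _ _ (pow_ne_zero _ hx0ne)]
  exact div_mem (hmem A) (hmem B)

end homog2

section dependence

lemma not_algInd_of_mem_adjoin {K L : Type*} [Field K] [Field L] [Algebra K L] {N : ℕ}
    (s : Fin N → L) (y : Fin (N + 1) → L)
    (hy : ∀ i, y i ∈ IntermediateField.adjoin K (Set.range s)) :
    ¬ AlgebraicIndependent K y := by
  intro hind
  have h1 : (AlgebraicIndependent.matroid K L).Indep (Set.range y) := by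
    rw [AlgebraicIndependent.matroid_indep_iff]
    exact hind.to_subtype_range
  have h2 : Set.range y ⊆ (AlgebraicIndependent.matroid K L).closure (Set.range s) := by
    rintro _ ⟨i, rfl⟩
    rw [AlgebraicIndependent.matroid_closure_eq]
    rw [SetLike.mem_coe, Subalgebra.mem_algebraicClosure]
    rw [← IntermediateField.isAlgebraic_adjoin_iff]
    exact isAlgebraic_algebraMap (⟨y i, hy i⟩ : IntermediateField.adjoin K (Set.range s))
  have h3 := h1.encard_le_eRk_of_subset h2
  rw [Matroid.eRk_closure_eq] at h3
  have h4 := (AlgebraicIndependent.matroid K L).eRk_le_encard (Set.range s)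
  have h5 : (Set.range y).encard = ((N + 1 : ℕ) : ℕ∞) := by
    rw [← Set.image_univ, Set.InjOn.encard_image hind.injective.injOn, Set.encard_univ]
    simp
  have h6 : (Set.range s).encard ≤ (N : ℕ∞) := by
    rw [← Set.image_univ]
    refine (Set.encard_image_le _ _).trans ?_
    rw [Set.encard_univ]
    simp
  rw [h5] at h3
  have h7 : ((N + 1 : ℕ) : ℕ∞) ≤ (N : ℕ∞) := h3.trans (h4.trans h6)
  rw [Nat.cast_le] at h7
  omega

end dependence

section constants

lemma exists_const {K L : Type*} [Field K] [IsAlgClosed K] [Field L] [Algebra K L] (y : L)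
    (hy : IsAlgebraic K y) : ∃ c : K, algebraMap K L c = y := by
  have h1 : IsIntegral K y := hy.isIntegral
  have h2 := IsAlgClosed.degree_eq_one_of_irreducible K (minpoly.irreducible h1)
  exact minpoly.mem_range_of_degree_eq_one K y h2

end constants

end Pool.Agent.H22
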