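import Mathlib
import Pool.Agent.H22.Defs

set_option autoImplicit false

namespace Pool.Agent.H22

open MvPolynomial

/-- the linear combination map -/
noncomputable def combMap {K : Type*} [Field K] {σ ι : Type*} [Fintype ι]
    (G : ι → MvPolynomial σ K) : (ι → K) →ₗ[K] MvPolynomial σ K where
  toFun a := ∑ i, C (a i) * G i
  map_add' a b := by
    rw [← Finset.sum_add_distrib]
    refine Finset.sum_congr rfl fun i _ => ?_
    rw [Pi.add_apply, C_add, add_mul]
  map_smul' c a := by
    rw [RingHom.id_apply, Finset.smul_sum]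
    refine Finset.sum_congr rfl fun i _ => ?_
    rw [Pi.smul_apply, smul_eq_mul, C_mul, MvPolynomial.smul_eq_C_mul, mul_assoc]

lemma combMap_apply {K : Type*} [Field K] {σ ι : Type*} [Fintype ι]
    (G : ι → MvPolynomial σ K) (a : ι → K) : combMap G a = ∑ i, C (a i) * G i := rfl

lemma combMap_single {K : Type*} [Field K] {σ ι : Type*} [Fintype ι] [DecidableEq ι]
    (G : ι → MvPolynomial σ K) (i : ι) : combMap G (Pi.single i 1) = G i := by
  rw [combMap_apply, Finset.sum_eq_single i]
  · simp
  · intro j _ hj
    simp [Pi.single_eq_of_ne hj]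
  · intro h
    exact absurd (Finset.mem_univ i) h

/-- avoiding finitely many proper subspaces -/
lemma exists_avoid {K : Type*} [Field K] [Infinite K] {E : Type*} [AddCommGroup E] [Module K E]
    {κ : Type*} (T : Finset κ) (p : κ → Submodule K E) (hp : ∀ t ∈ T, p t ≠ ⊤) :
    ∃ a : E, ∀ t ∈ T, a ∉ p t := by
  classical
  have h := Subspace.biUnion_ne_univ_of_top_notMem (k := K) (E := E) (s := T.image p) (by
    intro hmem
    obtain ⟨t, ht, htop⟩ := Finset.mem_image.1 hmem
    exact hp t ht htop)
  rw [Set.ne_univ_iff_exists_notMem] at h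
  obtain ⟨a, ha⟩ := h
  refine ⟨a, fun t ht hmem => ha ?_⟩
  simp only [Set.mem_iUnion]
  exact ⟨p t, Finset.mem_image_of_mem p ht, hmem⟩

lemma homogeneousComponent_totalDegree_ne_zero {K : Type*} [Field K] {σ : Type*}
    (p : MvPolynomial σ K) (hp : p ≠ 0) : homogeneousComponent p.totalDegree p ≠ 0 := by
  intro h
  obtain ⟨s, hs, hsd⟩ : ∃ s ∈ p.support, (s.sum fun _ e => e) = p.totalDegree := by
    obtain ⟨s, hs, hs'⟩ := Finset.exists_mem_eq_sup p.support (support_nonempty.2 hp)
      (fun s => s.sum fun _ e => e)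
    exact ⟨s, hs, hs'.symm⟩
  have h1 := congrArg (coeff s) h
  rw [coeff_homogeneousComponent, coeff_zero, if_pos] at h1
  · exact (mem_support_iff.1 hs) h1
  · rw [← hsd]
    rfl

/-- generic linear forms -/
theorem exists_generic_forms {K : Type*} [Field K] [Infinite K] {σ ι τ : Type*} [Fintype ι]
    (T : Finset τ) (G : τ → ι → MvPolynomial σ K) (D : τ → ℕ)
    (hcop : ∀ t ∈ T, ∀ p, (∀ i, p ∣ G t i) → IsUnit p)
    (hdeg : ∀ t ∈ T, (∀ i, (G t i).totalDegree ≤ D t) ∧
      ∃ i, G t i ≠ 0 ∧ (G t i).totalDegree = D t) :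
    ∃ a b : ι → K, ∀ t ∈ T, (∑ i, C (a i) * G t i) ≠ 0 ∧ (∑ i, C (b i) * G t i) ≠ 0 ∧
      (∑ i, C (a i) * G t i).totalDegree = D t ∧
      IsRelPrime (∑ i, C (a i) * G t i) (∑ i, C (b i) * G t i) := by
  classical
  obtain ⟨a, ha⟩ := exists_avoid (K := K) T
    (fun t => LinearMap.ker ((homogeneousComponent (D t)).comp (combMap (G t)))) (by
      intro t ht htop
      obtain ⟨i, hi0, hiD⟩ := (hdeg t ht).2
      have h1 : (Pi.single i 1 : ι → K) ∈
          LinearMap.ker ((homogeneousComponent (D t)).comp (combMap (G t))) := by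
        rw [htop]; exact Submodule.mem_top
      rw [LinearMap.mem_ker, LinearMap.comp_apply, combMap_single, ← hiD] at h1
      exact homogeneousComponent_totalDegree_ne_zero _ hi0 h1)
  have hA0 : ∀ t ∈ T, combMap (G t) a ≠ 0 := by
    intro t ht h0
    apply ha t ht
    rw [LinearMap.mem_ker, LinearMap.comp_apply, h0, map_zero]
  have hAD : ∀ t ∈ T, (combMap (G t) a).totalDegree = D t := by
    intro t ht
    apply le_antisymm
    · rw [combMap_apply]
      apply totalDegree_finsetSum_le
      intro i _
      refine (totalDegree_mul _ _).trans ?_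
      rw [totalDegree_C, zero_add]
      exact (hdeg t ht).1 i
    · by_contra hlt
      push Not at hlt
      apply ha t ht
      rw [LinearMap.mem_ker, LinearMap.comp_apply]
      exact homogeneousComponent_eq_zero _ _ hlt
  -- choice of `b`
  obtain ⟨b, hb⟩ := exists_avoid (K := K)
    (T.biUnion fun t => insert (t, none)
      ((UniqueFactorizationMonoid.factors (combMap (G t) a)).toFinset.image
      fun p => (t, some p)))
    (fun tp : τ × Option (MvPolynomial σ K) => match tp.2 with
      | none => LinearMap.ker (combMap (G tp.1))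
      | some p => ((Ideal.span {p}).restrictScalars K).comap (combMap (G tp.1))) (by
      rintro ⟨t, p⟩ htp htop
      rw [Finset.mem_biUnion] at htp
      obtain ⟨t', ht', hmem⟩ := htp
      rw [Finset.mem_insert, Finset.mem_image] at hmem
      rcases hmem with heq | ⟨p', hp', heq⟩
      · obtain ⟨rfl, rfl⟩ := Prod.mk.inj heq
        obtain ⟨i, hi0, hiD⟩ := (hdeg t ht').2
        have h1 : (Pi.single i 1 : ι → K) ∈ LinearMap.ker (combMap (G t)) := by
          have := htop
          simp only at this
          rw [this]; exact Submodule.mem_top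
        rw [LinearMap.mem_ker, combMap_single] at h1
        exact hi0 h1
      · obtain ⟨rfl, rfl⟩ := Prod.mk.inj heq
        rw [Multiset.mem_toFinset] at hp'
        have hirr := UniqueFactorizationMonoid.irreducible_of_factor _ hp'
        apply hirr.not_isUnit
        apply hcop t' ht' p'
        intro i
        have h1 : (Pi.single i 1 : ι → K) ∈ ((Ideal.span {p'}).restrictScalars K).comap
            (combMap (G t')) := by
          have := htop
          simp only at this
          rw [this]; exact Submodule.mem_top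
        rw [Submodule.mem_comap, combMap_single] at h1
        exact Ideal.mem_span_singleton.1 h1)
  refine ⟨a, b, fun t ht => ⟨hA0 t ht, ?_, hAD t ht, ?_⟩⟩
  · intro h0
    refine hb (t, none) ?_ ?_
    · rw [Finset.mem_biUnion]
      exact ⟨t, ht, Finset.mem_insert_self _ _⟩
    · show b ∈ LinearMap.ker (combMap (G t))
      rw [LinearMap.mem_ker]
      exact h0
  · intro c hcA hcB
    by_contra hc
    have hc0 : c ≠ 0 := by
      rintro rfl
      exact hA0 t ht (zero_dvd_iff.1 hcA)
    obtain ⟨q, hq, hqc⟩ := WfDvdMonoid.exists_irreducible_factor hc hc0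
    obtain ⟨p, hp, hqp⟩ := UniqueFactorizationMonoid.exists_mem_factors_of_dvd (hA0 t ht) hq
      (hqc.trans hcA)
    refine hb (t, some p) ?_ ?_
    · rw [Finset.mem_biUnion]
      refine ⟨t, ht, Finset.mem_insert_of_mem (Finset.mem_image.2 ⟨p, ?_, rfl⟩)⟩
      rw [Multiset.mem_toFinset]
      exact hp
    · show b ∈ ((Ideal.span {p}).restrictScalars K).comap (combMap (G t))
      rw [Submodule.mem_comap]
      exact Ideal.mem_span_singleton.2 (hqp.symm.dvd.trans (hqc.trans hcB))

end Pool.Agent.H22
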