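import Mathlib

set_option autoImplicit false

namespace Pool.Agent.H22

open MvPolynomial

/-- (E) the final numerical argument -/
theorem numeric_final (N k : ℕ) (hk : 1 ≤ k) (hkN : k ≤ N) (ρ : ℕ → ℕ) (D : ℕ → ℝ)
    (hD : ∀ j ≤ k, 0 < D j) (δ : ℝ) (hδ : 0 < δ) (hρ : 0 < ρ k)
    (hA : ∀ B : ℝ, δ < B → ∀ i < k, (ρ i : ℝ) * B ^ i ≤
      ((k + 1 : ℕ) : ℝ) * ∑ j ∈ (Finset.range (k + 1)).erase i, (ρ j : ℝ) * B ^ j)
    (hB : (ρ k : ℝ) * D k ≤ ((k + 1 : ℕ) : ℝ) * ∑ j ∈ Finset.range k, (ρ j : ℝ) * D j) :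
    ∃ j < k, D (j + 1) / D j ≤ (((N : ℝ) + 1) ^ 2) ^ (2 * N + 1) * δ := by
  by_contra hcon
  push Not at hcon
  set κ : ℝ := ((N : ℝ) + 1) ^ 2 with hκ
  have hkN' : (k : ℝ) ≤ N := by exact_mod_cast hkN
  have hk' : (1 : ℝ) ≤ k := by exact_mod_cast hk
  have hκ1 : 1 < κ := by rw [hκ]; nlinarith
  have hκ0 : 0 < κ := by linarith
  have hκk : ((k : ℝ) + 1) * k < κ := by rw [hκ]; nlinarith
  -- the minimal ratio
  obtain ⟨j0, hj0, hmin⟩ := Finset.exists_min_image (Finset.range k) (fun j => D (j + 1) / D j)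
    ⟨0, Finset.mem_range.2 (by omega)⟩
  set r : ℝ := D (j0 + 1) / D j0 with hr
  have hrbig : κ ^ (2 * N + 1) * δ < r := hcon j0 (Finset.mem_range.1 hj0)
  have hr0 : 0 < r := lt_trans (by positivity) hrbig
  have hratio : ∀ j < k, r * D j ≤ D (j + 1) := by
    intro j hj
    have h1 := hmin j (Finset.mem_range.2 hj)
    rw [le_div_iff₀ (hD j hj.le)] at h1
    exact h1
  have hDj : ∀ m, ∀ j, j + m = k → r ^ m * D j ≤ D k := by
    intro m
    induction m with
    | zero => intro j hj; simp at hj; simp [hj]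
    | succ m ih =>
      intro j hj
      have h1 := ih (j + 1) (by omega)
      have h2 := hratio j (by omega)
      calc r ^ (m + 1) * D j = r ^ m * (r * D j) := by ring
        _ ≤ r ^ m * D (j + 1) := mul_le_mul_of_nonneg_left h2 (by positivity)
        _ ≤ D k := h1
  have hDk := hD k le_rfl
  have hρk : (0 : ℝ) < ρ k := by exact_mod_cast hρ
  -- the inequality at r
  have hBr : (ρ k : ℝ) * r ^ k ≤ ((k : ℝ) + 1) * ∑ j ∈ Finset.range k, (ρ j : ℝ) * r ^ j := by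
    have h1 : (ρ k : ℝ) * r ^ k * D k ≤
        (((k : ℝ) + 1) * ∑ j ∈ Finset.range k, (ρ j : ℝ) * r ^ j) * D k := by
      have h2 : (ρ k : ℝ) * r ^ k * D k ≤ r ^ k * (((k : ℝ) + 1) * ∑ j ∈ Finset.range k, (ρ j : ℝ) * D j) := by
        have h3 := mul_le_mul_of_nonneg_left hB (by positivity : 0 ≤ r ^ k)
        push_cast at h3
        linarith
      refine h2.trans ?_
      have h4 : r ^ k * ∑ j ∈ Finset.range k, (ρ j : ℝ) * D j ≤
          (∑ j ∈ Finset.range k, (ρ j : ℝ) * r ^ j) * D k := by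
        rw [Finset.mul_sum, Finset.sum_mul]
        apply Finset.sum_le_sum
        intro j hj
        have hjk := Finset.mem_range.1 hj
        have h5 := hDj (k - j) j (by omega)
        have h6 : r ^ k = r ^ j * r ^ (k - j) := by rw [← pow_add]; congr 1; omega
        rw [h6]
        have h7 : 0 ≤ (ρ j : ℝ) * r ^ j := by positivity
        nlinarith [mul_le_mul_of_nonneg_left h5 h7]
      nlinarith
    exact le_of_mul_le_mul_right h1 hDk
  -- Claim 1
  have hclaim : ∀ B : ℝ, 0 < B → κ * B ≤ r → ∃ i < k, ∀ j ≤ k, (ρ j : ℝ) * B ^ j ≤ (ρ i : ℝ) * B ^ i := by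
    intro B hB0 hBr'
    obtain ⟨i, hi, hmax⟩ := Finset.exists_max_image (Finset.range k) (fun j => (ρ j : ℝ) * B ^ j)
      ⟨0, Finset.mem_range.2 (by omega)⟩
    refine ⟨i, Finset.mem_range.1 hi, ?_⟩
    intro j hj
    rcases Nat.lt_or_ge j k with hjk | hjk
    · exact hmax j (Finset.mem_range.2 hjk)
    · have hjk2 : j = k := le_antisymm hj hjk
      subst hjk2
      -- compare
      have h1 : κ * ((ρ j : ℝ) * B ^ j) ≤ ((j : ℝ) + 1) * ∑ l ∈ Finset.range j, (ρ l : ℝ) * B ^ l := by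
        have h2 : (ρ j : ℝ) * r ^ j * B ^ j * κ ≤
            (((j : ℝ) + 1) * ∑ l ∈ Finset.range j, (ρ l : ℝ) * B ^ l) * r ^ j := by
          have h3 : (ρ j : ℝ) * r ^ j * (B ^ j * κ) ≤
            (((j : ℝ) + 1) * ∑ l ∈ Finset.range j, (ρ l : ℝ) * r ^ l) * (B ^ j * κ) :=
            mul_le_mul_of_nonneg_right hBr (by positivity)
          have h4 : (∑ l ∈ Finset.range j, (ρ l : ℝ) * r ^ l) * (B ^ j * κ) ≤
              (∑ l ∈ Finset.range j, (ρ l : ℝ) * B ^ l) * r ^ j := by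
            rw [Finset.sum_mul, Finset.sum_mul]
            apply Finset.sum_le_sum
            intro l hl
            have hlj := Finset.mem_range.1 hl
            have e1 : B ^ j = B ^ l * B ^ (j - l) := by rw [← pow_add]; congr 1; omega
            have e2 : r ^ j = r ^ l * r ^ (j - l) := by rw [← pow_add]; congr 1; omega
            have h5 : B ^ (j - l) * κ ≤ r ^ (j - l) := by
              obtain ⟨m, hm⟩ : ∃ m, j - l = m + 1 := ⟨j - l - 1, by omega⟩
              rw [hm, pow_succ, pow_succ]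
              have hBr2 : B ≤ r := by nlinarith
              have h6 : B ^ m ≤ r ^ m := pow_le_pow_left₀ hB0.le hBr2 m
              calc B ^ m * B * κ = B ^ m * (κ * B) := by ring
                _ ≤ B ^ m * r := mul_le_mul_of_nonneg_left hBr' (by positivity)
                _ ≤ r ^ m * r := mul_le_mul_of_nonneg_right h6 hr0.le
            rw [e1, e2]
            have h7 : 0 ≤ (ρ l : ℝ) * r ^ l * B ^ l := by positivity
            calc (ρ l : ℝ) * r ^ l * (B ^ l * B ^ (j - l) * κ)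
                = ((ρ l : ℝ) * r ^ l * B ^ l) * (B ^ (j - l) * κ) := by ring
              _ ≤ ((ρ l : ℝ) * r ^ l * B ^ l) * r ^ (j - l) := mul_le_mul_of_nonneg_left h5 h7
              _ = (ρ l : ℝ) * B ^ l * (r ^ l * r ^ (j - l)) := by ring
          calc (ρ j : ℝ) * r ^ j * B ^ j * κ = (ρ j : ℝ) * r ^ j * (B ^ j * κ) := by ring
            _ ≤ (((j : ℝ) + 1) * ∑ l ∈ Finset.range j, (ρ l : ℝ) * r ^ l) * (B ^ j * κ) := h3
            _ = ((j : ℝ) + 1) * ((∑ l ∈ Finset.range j, (ρ l : ℝ) * r ^ l) * (B ^ j * κ)) := by ring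
            _ ≤ ((j : ℝ) + 1) * ((∑ l ∈ Finset.range j, (ρ l : ℝ) * B ^ l) * r ^ j) :=
                mul_le_mul_of_nonneg_left h4 (by positivity)
            _ = _ := by ring
        have h8 : 0 < r ^ j := by positivity
        have h9 : (κ * ((ρ j : ℝ) * B ^ j)) * r ^ j ≤
            (((j : ℝ) + 1) * ∑ l ∈ Finset.range j, (ρ l : ℝ) * B ^ l) * r ^ j := by
          calc (κ * ((ρ j : ℝ) * B ^ j)) * r ^ j = (ρ j : ℝ) * r ^ j * B ^ j * κ := by ring
            _ ≤ _ := h2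
        exact le_of_mul_le_mul_right h9 h8
      have h10 : ∑ l ∈ Finset.range j, (ρ l : ℝ) * B ^ l ≤ (j : ℝ) * ((ρ i : ℝ) * B ^ i) := by
        have := Finset.sum_le_card_nsmul (Finset.range j) (fun l => (ρ l : ℝ) * B ^ l) ((ρ i : ℝ) * B ^ i) hmax
        simpa using this
      have h11 : κ * ((ρ j : ℝ) * B ^ j) ≤ (((j : ℝ) + 1) * j) * ((ρ i : ℝ) * B ^ i) := by
        calc κ * ((ρ j : ℝ) * B ^ j) ≤ ((j : ℝ) + 1) * ∑ l ∈ Finset.range j, (ρ l : ℝ) * B ^ l := h1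
          _ ≤ ((j : ℝ) + 1) * ((j : ℝ) * ((ρ i : ℝ) * B ^ i)) := mul_le_mul_of_nonneg_left h10 (by positivity)
          _ = _ := by ring
      have h12 : 0 ≤ (ρ i : ℝ) * B ^ i := by positivity
      have h13 : κ * ((ρ j : ℝ) * B ^ j) ≤ κ * ((ρ i : ℝ) * B ^ i) :=
        h11.trans (mul_le_mul_of_nonneg_right hκk.le h12)
      exact le_of_mul_le_mul_left h13 hκ0
  -- the points
  let B : ℕ → ℝ := fun t => r / κ ^ (2 * k + 1) * κ ^ (2 * t)
  have hBpos : ∀ t, 0 < B t := fun t => by positivity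
  have hBδ : ∀ t, δ < B t := by
    intro t
    have h1 : κ ^ (2 * k + 1) ≤ κ ^ (2 * N + 1) := pow_le_pow_right₀ hκ1.le (by omega)
    have h2 : δ < r / κ ^ (2 * k + 1) := by
      rw [lt_div_iff₀ (by positivity)]
      calc δ * κ ^ (2 * k + 1) ≤ δ * κ ^ (2 * N + 1) := mul_le_mul_of_nonneg_left h1 hδ.le
        _ < r := by linarith
    have h3 : 1 ≤ κ ^ (2 * t) := one_le_pow₀ hκ1.le
    have h4 : r / κ ^ (2 * k + 1) ≤ B t := le_mul_of_one_le_right (by positivity) h3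
    linarith
  have hBr2 : ∀ t ≤ k, κ * B t ≤ r := by
    intro t ht
    have h1 : κ ^ (2 * t) ≤ κ ^ (2 * k) := pow_le_pow_right₀ hκ1.le (by omega)
    calc κ * B t = (r / κ ^ (2 * k + 1)) * κ * κ ^ (2 * t) := by simp only [B]; ring
      _ ≤ (r / κ ^ (2 * k + 1)) * κ * κ ^ (2 * k) := mul_le_mul_of_nonneg_left h1 (by positivity)
      _ = r := by rw [pow_succ]; field_simp
  have hch : ∀ t, ∃ i, t ≤ k → (i < k ∧ ∀ j ≤ k, (ρ j : ℝ) * B t ^ j ≤ (ρ i : ℝ) * B t ^ i) := by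
    intro t
    by_cases ht : t ≤ k
    · obtain ⟨i, hi, h⟩ := hclaim (B t) (hBpos t) (hBr2 t ht)
      exact ⟨i, fun _ => ⟨hi, h⟩⟩
    · exact ⟨0, fun h => absurd h ht⟩
  choose I hI using hch
  have hρI : ∀ t ≤ k, 0 < (ρ (I t) : ℝ) := by
    intro t ht
    have h1 := (hI t ht).2 k le_rfl
    have h2 : 0 < (ρ k : ℝ) * B t ^ k := by have := hBpos t; positivity
    have h3 : 0 < (ρ (I t) : ℝ) * B t ^ (I t) := lt_of_lt_of_le h2 h1
    have h4 : 0 < B t ^ (I t) := by have := hBpos t; positivity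
    by_contra h5
    push Not at h5
    nlinarith
  have hmono : ∀ t, t + 1 ≤ k → I t ≤ I (t + 1) := by
    intro t ht
    by_contra hlt
    push Not at hlt
    obtain ⟨h1, h2⟩ := hI t (by omega)
    obtain ⟨h3, h4⟩ := hI (t + 1) ht
    have h5 := h2 (I (t + 1)) h3.le
    have h6 := h4 (I t) h1.le
    obtain ⟨m, hm⟩ : ∃ m, I t = I (t + 1) + (m + 1) := ⟨I t - I (t + 1) - 1, by omega⟩
    have hBlt : B t < B (t + 1) := by
      have e : B (t + 1) = B t * (κ * κ) := by simp only [B]; rw [show 2 * (t + 1) = 2 * t + 2 by ring, pow_add]; ring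
      rw [e]
      exact lt_mul_of_one_lt_right (hBpos t) (by nlinarith)
    have hb := hBpos t
    have hb' := hBpos (t + 1)
    have hρt := hρI t (by omega)
    rw [hm] at h5 h6 hρt
    rw [pow_add] at h5 h6
    have e5 : (ρ (I (t + 1)) : ℝ) ≤ (ρ (I (t + 1) + (m + 1)) : ℝ) * B t ^ (m + 1) := by
      have : (ρ (I (t + 1)) : ℝ) * B t ^ I (t + 1) ≤
          ((ρ (I (t + 1) + (m + 1)) : ℝ) * B t ^ (m + 1)) * B t ^ I (t + 1) := by linarith
      exact le_of_mul_le_mul_right this (by positivity)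
    have e6 : (ρ (I (t + 1) + (m + 1)) : ℝ) * B (t + 1) ^ (m + 1) ≤ (ρ (I (t + 1)) : ℝ) := by
      have : ((ρ (I (t + 1) + (m + 1)) : ℝ) * B (t + 1) ^ (m + 1)) * B (t + 1) ^ I (t + 1) ≤
          (ρ (I (t + 1)) : ℝ) * B (t + 1) ^ I (t + 1) := by linarith
      exact le_of_mul_le_mul_right this (by positivity)
    have e7 : B t ^ (m + 1) < B (t + 1) ^ (m + 1) := pow_lt_pow_left₀ hBlt hb.le (by omega)
    have e8 : (ρ (I (t + 1) + (m + 1)) : ℝ) * B t ^ (m + 1) <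
      (ρ (I (t + 1) + (m + 1)) : ℝ) * B (t + 1) ^ (m + 1) := mul_lt_mul_of_pos_left e7 hρt
    linarith
  -- pigeonhole
  have hex : ∃ t, t + 1 ≤ k ∧ I t = I (t + 1) := by
    by_contra hno
    push Not at hno
    have hge : ∀ t, t ≤ k → t ≤ I t := by
      intro t
      induction t with
      | zero => intro _; omega
      | succ t ih =>
        intro ht
        have h1 := ih (by omega)
        have h2 := hmono t ht
        have h3 := hno t ht
        omega
    have h1 := hge k le_rfl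
    have h2 := (hI k le_rfl).1
    omega
  obtain ⟨t, ht, heq⟩ := hex
  obtain ⟨h1, h2⟩ := hI t (by omega)
  obtain ⟨h3, h4⟩ := hI (t + 1) ht
  rw [← heq] at h4
  set i := I t with hi
  have hρi : 0 < (ρ i : ℝ) := hρI t (by omega)
  have hb := hBpos t
  set b := B t with hbdef
  have hb1 : B (t + 1) = b * κ * κ := by
    simp only [b, B]; rw [show 2 * (t + 1) = 2 * t + 2 by ring, pow_add]; ring
  rw [hb1] at h4
  have hbδ : δ < b := hBδ t
  clear hbdef
  clear_value b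
  have hstep : ∀ j ≤ k, j ≠ i → κ * ((ρ j : ℝ) * (b * κ) ^ j) ≤ (ρ i : ℝ) * (b * κ) ^ i := by
    intro j hj hji
    rcases Nat.lt_or_gt_of_ne hji with hlt | hgt
    · -- j < i
      have h5 := h2 j hj
      obtain ⟨m, hm⟩ : ∃ m, i = j + (m + 1) := ⟨i - j - 1, by omega⟩
      have h6 : κ ^ (j + 1) ≤ κ ^ i := pow_le_pow_right₀ hκ1.le (by omega)
      calc κ * ((ρ j : ℝ) * (b * κ) ^ j) = ((ρ j : ℝ) * b ^ j) * κ ^ (j + 1) := by rw [mul_pow, pow_succ]; ring
        _ ≤ ((ρ i : ℝ) * b ^ i) * κ ^ i := mul_le_mul h5 h6 (by positivity) (by positivity)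
        _ = (ρ i : ℝ) * (b * κ) ^ i := by rw [mul_pow]; ring
    · -- i < j
      have h5 := h4 j hj
      obtain ⟨m, hm⟩ : ∃ m, j = i + (m + 1) := ⟨j - i - 1, by omega⟩
      have h7 : ((ρ j : ℝ) * (b * κ) ^ j) * κ ^ j ≤ ((ρ i : ℝ) * (b * κ) ^ i) * κ ^ i := by
        calc ((ρ j : ℝ) * (b * κ) ^ j) * κ ^ j = (ρ j : ℝ) * (b * κ * κ) ^ j := by rw [mul_pow (b * κ)]; ring
          _ ≤ (ρ i : ℝ) * (b * κ * κ) ^ i := h5
          _ = _ := by rw [mul_pow (b * κ)]; ring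
      have h8 : (κ * ((ρ j : ℝ) * (b * κ) ^ j)) * κ ^ i ≤ ((ρ i : ℝ) * (b * κ) ^ i) * κ ^ i := by
        have h9 : κ ^ (i + 1) ≤ κ ^ j := pow_le_pow_right₀ hκ1.le (by omega)
        calc (κ * ((ρ j : ℝ) * (b * κ) ^ j)) * κ ^ i = ((ρ j : ℝ) * (b * κ) ^ j) * κ ^ (i + 1) := by
              rw [pow_succ]; ring
          _ ≤ ((ρ j : ℝ) * (b * κ) ^ j) * κ ^ j := mul_le_mul_of_nonneg_left h9 (by positivity)
          _ ≤ _ := h7
      exact le_of_mul_le_mul_right h8 (by positivity)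
  have hbκ : δ < b * κ := by
    have h5 : b ≤ b * κ := le_mul_of_one_le_right hb.le hκ1.le
    linarith
  have hfin := hA (b * κ) hbκ i h1
  have hsum : κ * ∑ j ∈ (Finset.range (k + 1)).erase i, (ρ j : ℝ) * (b * κ) ^ j ≤
      (k : ℝ) * ((ρ i : ℝ) * (b * κ) ^ i) := by
    rw [Finset.mul_sum]
    have h5 := Finset.sum_le_card_nsmul ((Finset.range (k + 1)).erase i)
      (fun j => κ * ((ρ j : ℝ) * (b * κ) ^ j)) ((ρ i : ℝ) * (b * κ) ^ i) (by
        intro j hj
        rw [Finset.mem_erase, Finset.mem_range] at hj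
        exact hstep j (by omega) hj.1)
    have hcard : ((Finset.range (k + 1)).erase i).card = k := by
      rw [Finset.card_erase_of_mem (Finset.mem_range.2 (by omega)), Finset.card_range]; omega
    rw [hcard, nsmul_eq_mul] at h5
    exact h5
  have hpi : 0 < (ρ i : ℝ) * (b * κ) ^ i := by positivity
  push_cast at hfin
  have h6 : κ * ((ρ i : ℝ) * (b * κ) ^ i) ≤ (((k : ℝ) + 1) * k) * ((ρ i : ℝ) * (b * κ) ^ i) := by
    calc κ * ((ρ i : ℝ) * (b * κ) ^ i) ≤ κ * (((k : ℝ) + 1) *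
          ∑ j ∈ (Finset.range (k + 1)).erase i, (ρ j : ℝ) * (b * κ) ^ j) :=
            mul_le_mul_of_nonneg_left hfin hκ0.le
      _ = ((k : ℝ) + 1) * (κ * ∑ j ∈ (Finset.range (k + 1)).erase i, (ρ j : ℝ) * (b * κ) ^ j) := by ring
      _ ≤ ((k : ℝ) + 1) * ((k : ℝ) * ((ρ i : ℝ) * (b * κ) ^ i)) :=
            mul_le_mul_of_nonneg_left hsum (by positivity)
      _ = _ := by ring
  nlinarith [mul_pos (sub_pos.2 hκk) hpi]

end Pool.Agent.H22
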