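import Mathlib
import Pool.Agent.H22.Defs

set_option autoImplicit false

namespace Pool.Agent.H22

open MvPolynomial

/-- (B) the relation polynomial -/
theorem exists_relation {K L : Type*} [Field K] [Field L] [Algebra K L] {k : ℕ}
    (y : Fin (k + 1) → L) (hind : AlgebraicIndependent K (fun i : Fin k => y i.succ))
    (hdep : ¬ AlgebraicIndependent K y) :
    ∃ R : MvPolynomial (Fin (k + 1)) K, R ≠ 0 ∧ aeval y R = 0 ∧
      ∀ P : MvPolynomial (Fin (k + 1)) K, aeval y P = 0 → R ∣ P := by
  classical
  have hI : (RingHom.ker (aeval y : MvPolynomial (Fin (k + 1)) K →ₐ[K] L)).IsPrime :=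
    RingHom.ker_isPrime _
  have hI0 : RingHom.ker (aeval y : MvPolynomial (Fin (k + 1)) K →ₐ[K] L) ≠ ⊥ := by
    intro h
    exact hdep ((RingHom.injective_iff_ker_eq_bot _).2 h)
  obtain ⟨R, hRI, hRp⟩ := hI.exists_mem_prime_of_ne_bot hI0
  have hR0 : aeval y R = 0 := hRI
  refine ⟨R, hRp.ne_zero, hR0, fun P hP => ?_⟩
  let _ : Algebra (MvPolynomial (Fin k) K) L :=
    (aeval (fun i : Fin k => y i.succ) : MvPolynomial (Fin k) K →ₐ[K] L).toRingHom.toAlgebra
  have halg : ∀ Q : MvPolynomial (Fin k) K,
      algebraMap (MvPolynomial (Fin k) K) L Q = aeval (fun i : Fin k => y i.succ) Q := fun _ => rfl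
  have hinj : Function.Injective (algebraMap (MvPolynomial (Fin k) K) L) := hind
  have : FaithfulSMul (MvPolynomial (Fin k) K) L :=
    (faithfulSMul_iff_algebraMap_injective _ _).2 hinj
  -- evaluation through `finSuccEquiv`
  have hcomp : ∀ Q : MvPolynomial (Fin (k + 1)) K,
      Polynomial.aeval (y 0) (finSuccEquiv K k Q) = aeval y Q := by
    intro Q
    have hring : ((Polynomial.aeval (y 0) :
        Polynomial (MvPolynomial (Fin k) K) →ₐ[MvPolynomial (Fin k) K] L).toRingHom.comp
          (finSuccEquiv K k).toRingEquiv.toRingHom)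
        = (aeval y : MvPolynomial (Fin (k + 1)) K →ₐ[K] L).toRingHom := by
      apply MvPolynomial.ringHom_ext
      · intro r
        have h1 : finSuccEquiv K k (C r) = Polynomial.C (C r) := by
          simp [finSuccEquiv_apply]
        simp [h1, halg]
      · intro i
        refine Fin.cases ?_ (fun j => ?_) i
        · simp [finSuccEquiv_X_zero]
        · simp [finSuccEquiv_X_succ, halg]
    exact congrArg (fun f => f Q) hring
  let F := FractionRing (MvPolynomial (Fin k) K)
  let _ : Algebra F L := FractionRing.liftAlgebra (MvPolynomial (Fin k) K) L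
  have : IsScalarTower (MvPolynomial (Fin k) K) F L :=
    FractionRing.isScalarTower_liftAlgebra (MvPolynomial (Fin k) K) L
  set R' := finSuccEquiv K k R with hR'
  set P' := finSuccEquiv K k P with hP'
  have hRprime : Prime R' := (MulEquiv.prime_iff (finSuccEquiv K k).toMulEquiv).2 hRp
  have hRirr : Irreducible R' := hRprime.irreducible
  have hR'0 : Polynomial.aeval (y 0) R' = 0 := by rw [hR', hcomp, hR0]
  have hP'0 : Polynomial.aeval (y 0) P' = 0 := by rw [hP', hcomp, hP]
  have hdeg : R'.natDegree ≠ 0 := by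
    intro h
    rw [Polynomial.eq_C_of_natDegree_eq_zero h, Polynomial.aeval_C] at hR'0
    have h2 : R'.coeff 0 = 0 := (map_eq_zero_iff _ hinj).1 hR'0
    apply hRprime.ne_zero
    rw [Polynomial.eq_C_of_natDegree_eq_zero h, h2, Polynomial.C_0]
  have hprim : R'.IsPrimitive := hRirr.isPrimitive hdeg
  have hirrF : Irreducible (R'.map (algebraMap _ F)) :=
    hprim.irreducible_iff_irreducible_map_fraction_map.1 hRirr
  have hRF : Polynomial.aeval (y 0) (R'.map (algebraMap _ F)) = 0 := by
    rw [Polynomial.aeval_map_algebraMap, hR'0]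
  have hPF : Polynomial.aeval (y 0) (P'.map (algebraMap _ F)) = 0 := by
    rw [Polynomial.aeval_map_algebraMap, hP'0]
  have hint : IsIntegral F (y 0) := by
    rw [← isAlgebraic_iff_isIntegral]
    exact ⟨_, hirrF.ne_zero, hRF⟩
  have h1 : minpoly F (y 0) ∣ R'.map (algebraMap _ F) := minpoly.dvd _ _ hRF
  have h2 : R'.map (algebraMap _ F) ∣ minpoly F (y 0) :=
    (minpoly.irreducible hint).dvd_symm hirrF h1
  have h3 : R'.map (algebraMap _ F) ∣ P'.map (algebraMap _ F) := h2.trans (minpoly.dvd _ _ hPF)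
  have h4 : R' ∣ P' := hprim.dvd_of_fraction_map_dvd_fraction_map h3
  exact (map_dvd_iff (finSuccEquiv K k)).1 h4

end Pool.Agent.H22
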