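import Mathlib
import Pool.Agent.H22.Defs

set_option autoImplicit false

namespace Pool.Agent.H22

open MvPolynomial

/-- clearing denominators -/
lemma clear_denominators {K : Type*} [Field K] {σ : Type*} {ι : Type*} [Fintype ι]
    (A B : ι → MvPolynomial σ K) (hB : ∀ j, B j ≠ 0)
    (d : ι → ℕ) (hd : ∀ j, d j = max (A j).totalDegree (B j).totalDegree)
    (m : ι → ℕ) (P : MvPolynomial ι K) (hP : ∀ j, P.degreeOf j ≤ m j) :
    ∃ W : MvPolynomial σ K, W.totalDegree ≤ ∑ j, m j * d j ∧
      aeval (fun j => algebraMap (MvPolynomial σ K) (FractionRing (MvPolynomial σ K)) (A j) /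
        algebraMap (MvPolynomial σ K) (FractionRing (MvPolynomial σ K)) (B j)) P *
        algebraMap (MvPolynomial σ K) (FractionRing (MvPolynomial σ K)) (∏ j, B j ^ m j) =
      algebraMap (MvPolynomial σ K) (FractionRing (MvPolynomial σ K)) W := by
  classical
  refine ⟨∑ s ∈ P.support, C (coeff s P) * ∏ j, (A j ^ s j * B j ^ (m j - s j)), ?_, ?_⟩
  · apply totalDegree_finsetSum_le
    intro s _
    refine (totalDegree_mul _ _).trans ?_
    rw [totalDegree_C, zero_add]
    refine (totalDegree_finsetProd _ _).trans ?_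
    refine Finset.sum_le_sum fun j _ => ?_
    have hs : s j ≤ m j := by
      refine le_trans ?_ (hP j)
      exact monomial_le_degreeOf j (by assumption)
    refine (totalDegree_mul _ _).trans ?_
    have h1 : (A j ^ s j).totalDegree ≤ s j * d j :=
      (totalDegree_pow _ _).trans (Nat.mul_le_mul_left _ (by rw [hd]; exact le_max_left _ _))
    have h2 : (B j ^ (m j - s j)).totalDegree ≤ (m j - s j) * d j :=
      (totalDegree_pow _ _).trans (Nat.mul_le_mul_left _ (by rw [hd]; exact le_max_right _ _))
    calc _ ≤ s j * d j + (m j - s j) * d j := Nat.add_le_add h1 h2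
      _ = m j * d j := by rw [← Nat.add_mul, Nat.add_sub_cancel' hs]
  · rw [aeval_def, eval₂_eq', Finset.sum_mul, map_sum]
    refine Finset.sum_congr rfl fun s hs => ?_
    rw [map_mul, map_prod, map_prod, mul_assoc, ← Finset.prod_mul_distrib]
    congr 1
    refine Finset.prod_congr rfl fun j _ => ?_
    have hs : s j ≤ m j := by
      refine le_trans ?_ (hP j)
      exact monomial_le_degreeOf j (by assumption)
    have hBj : algebraMap (MvPolynomial σ K) (FractionRing (MvPolynomial σ K)) (B j) ≠ 0 := by
      rw [Ne, map_eq_zero_iff _ (IsFractionRing.injective _ _)]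
      exact hB j
    rw [map_mul, map_pow, map_pow, map_pow, div_pow]
    obtain ⟨r, hr⟩ : ∃ r, m j = s j + r := ⟨m j - s j, by omega⟩
    rw [hr, Nat.add_sub_cancel_left, pow_add]
    field_simp

/-- total degree of a power -/
lemma totalDegree_pow_eq {K : Type*} [Field K] {σ : Type*} (X : MvPolynomial σ K) (M : ℕ) :
    (X ^ M).totalDegree = M * X.totalDegree := by
  by_cases hX : X = 0
  · subst hX
    cases M with
    | zero => simp
    | succ M => simp
  · induction M with
    | zero => simp
    | succ M ih =>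
      rw [pow_succ, totalDegree_mul_of_isDomain (pow_ne_zero _ hX) hX, ih]
      ring

/-- total degree satisfies the height inequality -/
theorem totalDegree_heightIneq {K : Type*} [Field K] {σ : Type*} {ι : Type*} [Fintype ι]
    (A B : ι → MvPolynomial σ K) (hB : ∀ j, B j ≠ 0) (hAB : ∀ j, IsRelPrime (A j) (B j))
    (d : ι → ℕ) (hd : ∀ j, d j = max (A j).totalDegree (B j).totalDegree) :
    HeightIneq K (L := FractionRing (MvPolynomial σ K))
      (fun j => algebraMap (MvPolynomial σ K) _ (A j) / algebraMap (MvPolynomial σ K) _ (B j))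
      (fun j => (d j : ℝ)) := by
  intro l M m P P' hP hP' hne heq
  obtain ⟨W, hW, hW'⟩ := clear_denominators A B hB d hd m P hP
  obtain ⟨V, hV, hV'⟩ := clear_denominators A B hB d hd m P' hP'
  have hinj := IsFractionRing.injective (MvPolynomial σ K) (FractionRing (MvPolynomial σ K))
  have hBl : algebraMap (MvPolynomial σ K) (FractionRing (MvPolynomial σ K)) (B l) ≠ 0 := by
    rw [Ne, map_eq_zero_iff _ hinj]
    exact hB l
  have hprod : algebraMap (MvPolynomial σ K) (FractionRing (MvPolynomial σ K))
      (∏ j, B j ^ m j) ≠ 0 := by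
    rw [Ne, map_eq_zero_iff _ hinj]
    exact Finset.prod_ne_zero_iff.2 fun j _ => pow_ne_zero _ (hB j)
  have hW0 : W ≠ 0 := by
    rintro rfl
    rw [map_zero] at hW'
    exact (mul_ne_zero hne hprod) hW'
  have key : A l ^ M * W = B l ^ M * V := by
    apply hinj
    rw [map_mul, map_mul, map_pow, map_pow, ← hW', ← hV', ← heq, div_pow]
    field_simp
  have hgoal : M * d l ≤ ∑ j, m j * d j := by
    by_cases hA : A l = 0
    · have h1 := hAB l
      rw [hA, isRelPrime_zero_left] at h1
      have h2 : (B l).totalDegree = 0 := by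
        obtain ⟨u, hu⟩ := h1
        have h3 : (B l) * (↑u⁻¹ : MvPolynomial σ K) = 1 := by rw [← hu]; simp
        have h4 : (↑u⁻¹ : MvPolynomial σ K) ≠ 0 := Units.ne_zero _
        have h5 := totalDegree_mul_of_isDomain (hB l) h4
        rw [h3, totalDegree_one] at h5
        omega
      have h3 : d l = 0 := by rw [hd, hA, h2]; simp
      rw [h3, mul_zero]
      exact Nat.zero_le _
    · have hV0 : V ≠ 0 := by
        rintro rfl
        rw [mul_zero] at key
        exact (mul_ne_zero (pow_ne_zero _ hA) hW0) key
      have hrel : IsRelPrime (A l ^ M) (B l ^ M) := (hAB l).pow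
      have h1 : B l ^ M ∣ W := by
        apply hrel.symm.dvd_of_dvd_mul_left
        exact ⟨V, key⟩
      have h2 : A l ^ M ∣ V := by
        apply hrel.dvd_of_dvd_mul_left
        exact ⟨W, key.symm⟩
      have aux : ∀ X Y : MvPolynomial σ K, Y ≠ 0 → X ^ M ∣ Y → M * X.totalDegree ≤ Y.totalDegree := by
        intro X Y hY hdvd
        obtain ⟨U, rfl⟩ := hdvd
        have hX0 : X ^ M ≠ 0 := left_ne_zero_of_mul hY
        have hU0 : U ≠ 0 := right_ne_zero_of_mul hY
        rw [totalDegree_mul_of_isDomain hX0 hU0]
        rw [totalDegree_pow_eq]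
        exact Nat.le_add_right _ _
      have h3 := aux _ _ hW0 h1
      have h4 := aux _ _ hV0 h2
      rw [hd l]
      rcases max_cases (A l).totalDegree (B l).totalDegree with h | h
      · rw [h.1]; omega
      · rw [h.1]; omega
  show (M : ℝ) * (d l : ℝ) ≤ ∑ j, (m j : ℝ) * (d j : ℝ)
  exact_mod_cast hgoal

end Pool.Agent.H22
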