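import Mathlib
import Pool.Agent.H22.Dyn
import Pool.Agent.H22.Core1
import Pool.Agent.H22.Window
import Pool.Agent.H22.Relation
import Pool.Agent.H22.TotalDeg
import Pool.Agent.H22.Generic
import Pool.Agent.H22.Numeric
import Pool.Agent.H22.ClaimA

set_option autoImplicit false

namespace Pool.Agent.H22

open MvPolynomial

/-- extension of an injective endomorphism of a domain to its fraction field -/
lemma exists_extension {K P L : Type*} [Field K] [CommRing P] [IsDomain P] [Algebra K P]
    [Field L] [Algebra K L] [Algebra P L] [IsScalarTower K P L] [IsFractionRing P L]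
    (φ : P →ₐ[K] P) (hφ : Function.Injective φ) :
    ∃ Φ : L →ₐ[K] L, ∀ p : P, Φ (algebraMap P L p) = algebraMap P L (φ p) := by
  have hinj : Function.Injective ((IsScalarTower.toAlgHom K P L).comp φ) := by
    intro a b hab
    apply hφ
    apply IsFractionRing.injective P L
    exact hab
  refine ⟨IsFractionRing.liftAlgHom hinj, fun p => ?_⟩
  rw [IsFractionRing.liftAlgHom_apply, IsFractionRing.lift_algebraMap]
  rfl

lemma adjoin_X_eq_top {K : Type*} [Field K] {σ : Type*} :
    IntermediateField.adjoin K (Set.range (fun i : σ =>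
      algebraMap (MvPolynomial σ K) (FractionRing (MvPolynomial σ K)) (X i))) = ⊤ := by
  rw [eq_top_iff]
  intro z _
  set F := IntermediateField.adjoin K (Set.range (fun i : σ =>
      algebraMap (MvPolynomial σ K) (FractionRing (MvPolynomial σ K)) (X i))) with hF
  have hmem : ∀ p : MvPolynomial σ K, algebraMap _ (FractionRing (MvPolynomial σ K)) p ∈ F := by
    intro p
    induction p using MvPolynomial.induction_on with
    | C a =>
      have : algebraMap (MvPolynomial σ K) (FractionRing (MvPolynomial σ K)) (C a) =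
          algebraMap K (FractionRing (MvPolynomial σ K)) a := by
        rw [IsScalarTower.algebraMap_apply K (MvPolynomial σ K)]
        rfl
      rw [this]
      exact F.algebraMap_mem a
    | add p q hp hq =>
      rw [map_add]
      exact add_mem hp hq
    | mul_X p i hp =>
      rw [map_mul]
      exact mul_mem hp (IntermediateField.subset_adjoin _ _ ⟨i, rfl⟩)
  obtain ⟨p, q, hq, rfl⟩ := IsFractionRing.div_surjective (A := MvPolynomial σ K) z
  exact div_mem (hmem p) (hmem q)

lemma degreeOf_le_of_dvd {K : Type*} [Field K] {σ : Type*} {P R : MvPolynomial σ K} (l : σ)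
    (hP : P ≠ 0) (h : R ∣ P) : R.degreeOf l ≤ P.degreeOf l := by
  obtain ⟨Q, rfl⟩ := h
  have hR : R ≠ 0 := left_ne_zero_of_mul hP
  have hQ : Q ≠ 0 := right_ne_zero_of_mul hP
  rw [degreeOf_mul_eq hR hQ]
  exact Nat.le_add_right _ _

lemma degreeOf_last_pos {K L : Type*} [Field K] [Field L] [Algebra K L] {k : ℕ}
    (y : Fin (k + 1) → L) (hind : AlgebraicIndependent K (fun i : Fin k => y i.castSucc))
    (R : MvPolynomial (Fin (k + 1)) K) (hR0 : R ≠ 0) (hR : aeval y R = 0) :
    0 < R.degreeOf (Fin.last k) := by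
  rw [Nat.pos_iff_ne_zero]
  intro h
  have h1 : (R.vars : Set (Fin (k + 1))) ⊆ Set.range (Fin.castSucc : Fin k → Fin (k + 1)) := by
    intro i hi
    rw [Fin.range_castSucc]
    show (i : ℕ) < k
    by_contra hcon
    have hi2 : i = Fin.last k := by
      apply Fin.ext
      rw [Fin.val_last]
      have := i.isLt
      omega
    rw [hi2] at hi
    rw [Finset.mem_coe, mem_vars_iff_mem_support] at hi
    obtain ⟨m, hm, hm2⟩ := hi
    have h2 := monomial_le_degreeOf (Fin.last k) hm
    rw [h] at h2
    rw [Finsupp.mem_support_iff] at hm2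
    omega
  obtain ⟨R', hR'⟩ := exists_rename_eq_of_vars_subset_range R Fin.castSucc
    (Fin.castSucc_injective k) h1
  apply hR0
  rw [← hR']
  rw [← hR', aeval_rename] at hR
  have h3 : R' = 0 := by
    apply hind
    rw [map_zero]
    exact hR
  rw [h3, map_zero]


/-- everything about the orbit of a general linear fraction -/
theorem core {K : Type*} [Field K] [IsAlgClosed K] {N : ℕ}
    (f : Fin (N + 1) → MvPolynomial (Fin (N + 1)) K) (d : ℕ)
    (hf : ∀ i, (f i).IsHomogeneous d) (hind : AlgebraicIndependent K f)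
    (D : ℕ → ℕ) (hD : ∀ n, D n = sInf (degSet f n)) (hpos : ∀ j ≤ N, 0 < D j)
    (δ : ℝ) (hδ : 0 < δ)
    (hlim : ∀ B : ℝ, δ < B → Filter.Tendsto (fun n => (D n : ℝ) / B ^ n) Filter.atTop (nhds 0)) :
    ∃ j < N, (D (j + 1) : ℝ) / D j ≤ (((N : ℝ) + 1) ^ 2) ^ (2 * N + 1) * δ := by
  classical
  have : Infinite K := IsAlgClosed.instInfinite
  choose g c hc hg hdeg hred using reduced f
  -- generic linear forms
  obtain ⟨a, b, hab⟩ := exists_generic_forms (K := K) (Finset.range (N + 1)) g D
    (by
      intro t ht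
      rw [Finset.mem_range] at ht
      have h1 : 0 < sInf (degSet f t) := by rw [← hD]; exact hpos t (by omega)
      exact (hred t h1).1)
    (by
      intro t ht
      rw [Finset.mem_range] at ht
      have h1 : 0 < sInf (degSet f t) := by rw [← hD]; exact hpos t (by omega)
      rw [hD]
      exact ⟨hdeg t, (hred t h1).2⟩)
  set A : ℕ → MvPolynomial (Fin (N + 1)) K := fun n => ∑ i, C (a i) * g n i with hA
  set Q : ℕ → MvPolynomial (Fin (N + 1)) K := fun n => ∑ i, C (b i) * g n i with hQ
  set la : MvPolynomial (Fin (N + 1)) K := ∑ i, C (a i) * X i with hla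
  set lb : MvPolynomial (Fin (N + 1)) K := ∑ i, C (b i) * X i with hlb
  have hcA : ∀ n, c n * A n = (bind₁ f)^[n] la := by
    intro n
    rw [← bind_iter, hla, hA]
    simp only [map_sum, map_mul, bind₁_X_right, hg, algHom_C, Finset.mul_sum]
    refine Finset.sum_congr rfl fun i _ => ?_
    rw [MvPolynomial.algebraMap_eq]
    ring
  have hcQ : ∀ n, c n * Q n = (bind₁ f)^[n] lb := by
    intro n
    rw [← bind_iter, hlb, hQ]
    simp only [map_sum, map_mul, bind₁_X_right, hg, algHom_C, Finset.mul_sum]
    refine Finset.sum_congr rfl fun i _ => ?_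
    rw [MvPolynomial.algebraMap_eq]
    ring
  have hφ : Function.Injective (bind₁ f) := hind
  have hQ0 : Q 0 ≠ 0 := (hab 0 (by simp)).2.1
  have hlb0 : lb ≠ 0 := by
    have h1 := hcQ 0
    rw [Function.iterate_zero, id] at h1
    rw [← h1]
    exact mul_ne_zero (hc 0) hQ0
  have hφn : ∀ n, (bind₁ f)^[n] lb ≠ 0 := by
    intro n h
    apply hlb0
    apply hφ.iterate n
    rw [h]
    exact (iterate_map_zero (bind₁ f) n).symm
  have hQn : ∀ n, Q n ≠ 0 := by
    intro n h
    apply hφn n
    rw [← hcQ, h, mul_zero]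
  have hdegA : ∀ n, (A n).totalDegree ≤ D n := by
    intro n
    rw [hD]
    refine totalDegree_finsetSum_le fun i _ => ?_
    refine (totalDegree_mul _ _).trans ?_
    rw [totalDegree_C, zero_add]
    exact hdeg n i
  have hdegQ : ∀ n, (Q n).totalDegree ≤ D n := by
    intro n
    rw [hD]
    refine totalDegree_finsetSum_le fun i _ => ?_
    refine (totalDegree_mul _ _).trans ?_
    rw [totalDegree_C, zero_add]
    exact hdeg n i
  -- the fraction field
  set L := FractionRing (MvPolynomial (Fin (N + 1)) K) with hL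
  have hinjL : Function.Injective (algebraMap (MvPolynomial (Fin (N + 1)) K) L) :=
    IsFractionRing.injective _ _
  set y : ℕ → L := fun n => algebraMap _ L (A n) / algebraMap _ L (Q n) with hy
  have hne : ∀ p : MvPolynomial (Fin (N + 1)) K, p ≠ 0 → algebraMap _ L p ≠ 0 := by
    intro p hp h
    apply hp
    apply hinjL
    rw [h, map_zero]
  have hy2 : ∀ n, y n = algebraMap _ L ((bind₁ f)^[n] la) / algebraMap _ L ((bind₁ f)^[n] lb) := by
    intro n
    rw [← hcA, ← hcQ, map_mul, map_mul, mul_div_mul_left _ _ (hne _ (hc n))]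
  obtain ⟨Φ, hΦ⟩ := exists_extension (L := L) (bind₁ f) hφ
  have hΦinj : Function.Injective Φ := Φ.toRingHom.injective
  have hΦy : ∀ n, Φ (y n) = y (n + 1) := by
    intro n
    rw [hy2, hy2, map_div₀, hΦ, hΦ, Function.iterate_succ_apply', Function.iterate_succ_apply']
  -- homogeneous degrees
  have hmem : ∀ n, y n ∈ IntermediateField.adjoin K (Set.range
      (fun i : Fin N => algebraMap (MvPolynomial (Fin (N + 1)) K) L (X i.succ) /
        algebraMap (MvPolynomial (Fin (N + 1)) K) L (X 0))) := by
    intro n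
    obtain ⟨e, he⟩ := iter_homog f d hf n
    rw [hy2]
    apply ratio_mem (e := e)
    · rw [← bind_iter, hla]
      simp only [map_sum, map_mul, bind₁_X_right, algHom_C]
      refine IsHomogeneous.sum _ _ _ fun i _ => ?_
      exact (he i).C_mul (a i)
    · rw [← bind_iter, hlb]
      simp only [map_sum, map_mul, bind₁_X_right, algHom_C]
      refine IsHomogeneous.sum _ _ _ fun i _ => ?_
      exact (he i).C_mul (b i)
  have hdepN : ∃ n, ¬ AlgebraicIndependent K (fun i : Fin n => y i) :=
    ⟨N + 1, not_algInd_of_mem_adjoin _ _ (fun i => hmem i)⟩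
  -- the first dependence
  have hk' : ∃ k, 1 ≤ k ∧ k ≤ N ∧ AlgebraicIndependent K (fun i : Fin k => y i) ∧
      ¬ AlgebraicIndependent K (fun i : Fin (k + 1) => y i) := by
    have h1 := Nat.find_spec hdepN
    have h2 := fun m hm => Nat.find_min (m := m) hdepN hm
    have h3 : Nat.find hdepN ≤ N + 1 :=
      Nat.find_min' hdepN (not_algInd_of_mem_adjoin _ _ (fun i => hmem i))
    set m := Nat.find hdepN with hm
    have hm0 : m ≠ 0 := by
      intro h
      rw [h] at h1
      apply h1
      rw [algebraicIndependent_empty_type_iff]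
      exact (algebraMap K L).injective
    have hm1 : m ≠ 1 := by
      intro h
      rw [h] at h1
      apply h1
      rw [algebraicIndependent_unique_type_iff]
      intro halg
      obtain ⟨c0, hc0⟩ := exists_const _ halg
      have h4 : algebraMap K L c0 = y 0 := by
        rw [hc0]
        rfl
      have h5 : A 0 = C c0 * Q 0 := by
        apply hinjL
        rw [map_mul]
        have h6 : algebraMap (MvPolynomial (Fin (N + 1)) K) L (C c0) = algebraMap K L c0 := by
          rw [IsScalarTower.algebraMap_apply K (MvPolynomial (Fin (N + 1)) K)]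
          rfl
        rw [h6, h4, hy]
        simp only
        rw [div_mul_cancel₀ _ (hne _ (hQn 0))]
      obtain ⟨h7, h8, h9, h10⟩ := hab 0 (by simp)
      have h11 : IsUnit (Q 0) := by
        apply h10
        · exact ⟨C c0, by rw [mul_comm]; exact h5⟩
        · exact dvd_rfl
      have h12 : (Q 0).totalDegree = 0 := by
        obtain ⟨u, hu⟩ := MvPolynomial.isUnit_iff_eq_C_of_isReduced.mp h11
        rw [hu.2, totalDegree_C]
      have h13 : (A 0).totalDegree = 0 := by
        rw [h5]
        have := totalDegree_mul (C c0) (Q 0)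
        rw [totalDegree_C, h12] at this
        omega
      have h14 := hpos 0 (by omega)
      have h15 : (A 0).totalDegree = D 0 := h9
      omega
    refine ⟨m - 1, by omega, by omega, ?_, ?_⟩
    · have := h2 (m - 1) (by omega)
      push Not at this
      exact this
    · have h4 : m - 1 + 1 = m := by omega
      rw [h4]
      exact h1
  obtain ⟨k, hk1, hkN, hindk, hdepk⟩ := hk'
  have hindsucc : AlgebraicIndependent K
      (fun i : Fin k => (fun j : Fin (k + 1) => y j) i.succ) := by
    have h1 := hindk.map' hΦinj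
    have h2 : (Φ ∘ fun i : Fin k => y i) =
        (fun i : Fin k => (fun j : Fin (k + 1) => y j) i.succ) := by
      funext i
      simp only [Function.comp_apply, Fin.val_succ]
      exact hΦy i
    rw [← h2]
    exact h1
  obtain ⟨R, hR0, hR1, hR2⟩ := exists_relation (fun j : Fin (k + 1) => y j) hindsucc hdepk
  -- windows
  have hwin : ∀ (n : ℕ) (P : MvPolynomial (Fin (k + 1)) K),
      aeval (fun j : Fin (k + 1) => y (n + j)) P =
        Φ^[n] (aeval (fun j : Fin (k + 1) => y j) P) := by
    intro n P
    induction n with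
    | zero =>
      rw [Function.iterate_zero, id]
      simp only [zero_add]
    | succ n ih =>
      rw [Function.iterate_succ_apply', ← ih]
      have h1 := comp_aeval_apply (R := K) (fun j : Fin (k + 1) => y (n + j)) Φ P
      rw [h1]
      have h2 : (fun j : Fin (k + 1) => y (n + 1 + j)) =
          fun j : Fin (k + 1) => Φ (y (n + j)) := by
        funext j
        rw [hΦy]
        have h3 : n + 1 + (j : ℕ) = n + j + 1 := by ring
        rw [h3]
      rw [h2]
  have hRn : ∀ n : ℕ, aeval (fun j : Fin (k + 1) => y (n + j)) R = 0 := by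
    intro n
    rw [hwin, hR1]
    exact iterate_map_zero Φ n
  have hminn : ∀ (n : ℕ) (l : Fin (k + 1)) (P : MvPolynomial (Fin (k + 1)) K), P ≠ 0 →
      aeval (fun j : Fin (k + 1) => y (n + j)) P = 0 → R.degreeOf l ≤ P.degreeOf l := by
    intro n l P hP h
    rw [hwin] at h
    apply degreeOf_le_of_dvd l hP
    apply hR2
    apply hΦinj.iterate n
    rw [h]
    exact (iterate_map_zero Φ n).symm
  -- claim A
  have hx := adjoin_X_eq_top (K := K) (σ := Fin (N + 1))
  have haeval : ∀ p : MvPolynomial (Fin (N + 1)) K,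
      aeval (fun i : Fin (N + 1) => algebraMap (MvPolynomial (Fin (N + 1)) K) L (X i)) p =
        algebraMap _ L p := by
    intro p
    have h2 := aeval_algebraMap_apply (A := MvPolynomial (Fin (N + 1)) K) L
      (X : Fin (N + 1) → _) p
    rw [aeval_X_left_apply] at h2
    rw [← h2]
    rfl
  have hD' : ∀ n, ∃ P Q : MvPolynomial (Fin (N + 1)) K, P.totalDegree ≤ D n ∧
      Q.totalDegree ≤ D n ∧
      aeval (fun i : Fin (N + 1) => algebraMap (MvPolynomial (Fin (N + 1)) K) L (X i)) Q ≠ 0 ∧
      y n * aeval (fun i : Fin (N + 1) =>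
        algebraMap (MvPolynomial (Fin (N + 1)) K) L (X i)) Q =
      aeval (fun i : Fin (N + 1) => algebraMap (MvPolynomial (Fin (N + 1)) K) L (X i)) P := by
    intro n
    refine ⟨A n, Q n, hdegA n, hdegQ n, ?_, ?_⟩
    · rw [haeval]
      exact hne _ (hQn n)
    · rw [haeval, haeval, hy]
      simp only
      rw [div_mul_cancel₀ _ (hne _ (hQn n))]
  -- the height inequality of the window
  have hH : HeightIneq K (fun j : Fin (k + 1) => y j) (fun j : Fin (k + 1) => ((D j : ℕ) : ℝ)) := by
    apply totalDegree_heightIneq (K := K) (fun j : Fin (k + 1) => A j)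
      (fun j : Fin (k + 1) => Q j) (fun j => hQn j) ?_ (fun j : Fin (k + 1) => D j) ?_
    · intro j
      have hj := j.isLt
      exact (hab j (by rw [Finset.mem_range]; omega)).2.2.2
    · intro j
      have hj := j.isLt
      have h1 : (A j).totalDegree = D j := (hab j (by rw [Finset.mem_range]; omega)).2.2.1
      have h2 := hdegQ j
      omega
  have hW := window_ineq (fun j : Fin (k + 1) => y j) R hR0 hR1
    (fun l P hP h => degreeOf_le_of_dvd l hP (hR2 P h))
    (fun j : Fin (k + 1) => ((D j : ℕ) : ℝ)) (fun j => Nat.cast_nonneg _) hH (Fin.last k)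
  have hρ := degreeOf_last_pos (fun j : Fin (k + 1) => y j) hindk R hR0 hR1
  set ρ : ℕ → ℕ := fun j => if h : j < k + 1 then R.degreeOf ⟨j, h⟩ else 0 with hρdef
  have hρj : ∀ j : Fin (k + 1), ρ j = R.degreeOf j := by
    intro j
    rw [hρdef]
    simp only [j.isLt, dite_true]
  have hsum : ∀ (i : Fin (k + 1)) (h : ℕ → ℝ),
      ∑ j ∈ Finset.univ.erase i, (R.degreeOf j : ℝ) * h j =
        ∑ j ∈ (Finset.range (k + 1)).erase (i : ℕ), (ρ j : ℝ) * h j := by
    intro i h
    have h1 := Finset.add_sum_erase (Finset.univ : Finset (Fin (k + 1)))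
      (fun j : Fin (k + 1) => (R.degreeOf j : ℝ) * h j) (Finset.mem_univ i)
    have h2 := Finset.add_sum_erase (Finset.range (k + 1))
      (fun j : ℕ => (ρ j : ℝ) * h j) (Finset.mem_range.mpr i.isLt)
    have h3 := Fin.sum_univ_eq_sum_range (fun j : ℕ => (ρ j : ℝ) * h j) (k + 1)
    have h4 : ∑ j : Fin (k + 1), (ρ j : ℝ) * h j = ∑ j : Fin (k + 1), (R.degreeOf j : ℝ) * h j := by
      refine Finset.sum_congr rfl fun j _ => ?_
      rw [hρj]
    have h5 : (ρ i : ℝ) = (R.degreeOf i : ℝ) := by rw [hρj]
    rw [h5] at h2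
    rw [h4] at h3
    linarith
  have hcoreA : ∀ B : ℝ, δ < B → ∀ i < k, (ρ i : ℝ) * B ^ i ≤
      ((k + 1 : ℕ) : ℝ) * ∑ j ∈ (Finset.range (k + 1)).erase i, (ρ j : ℝ) * B ^ j := by
    intro B hB i hi
    have h1 := claimA _ hx hk1 y hindk R hR0 hRn hminn D hD' B (hδ.trans hB) (hlim B hB)
      ⟨i, by omega⟩ hi
    have h2 := hsum ⟨i, by omega⟩ (fun j => B ^ j)
    rw [← h2]
    have h3 : ρ i = R.degreeOf ⟨i, by omega⟩ := hρj ⟨i, by omega⟩
    rw [h3]
    exact h1
  have hcoreB : (ρ k : ℝ) * D k ≤
      ((k + 1 : ℕ) : ℝ) * ∑ j ∈ Finset.range k, (ρ j : ℝ) * D j := by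
    have h2 := hsum (Fin.last k) (fun j => (D j : ℝ))
    simp only [Fin.val_last] at h2
    have h3 : (Finset.range (k + 1)).erase k = Finset.range k := by
      rw [Finset.range_add_one, Finset.erase_insert (by simp)]
    rw [h3] at h2
    have h4 : ρ k = R.degreeOf (Fin.last k) := hρj (Fin.last k)
    rw [h4, ← h2]
    have h5 : ((Fintype.card (Fin (k + 1)) : ℕ) : ℝ) = ((k + 1 : ℕ) : ℝ) := by
      rw [Fintype.card_fin]
    rw [h5] at hW
    simpa using hW
  obtain ⟨j, hj, hfin⟩ := numeric_final N k hk1 hkN ρ (fun n => (D n : ℝ))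
    (fun j hj => by exact_mod_cast hpos j (by omega)) δ hδ
    (by
      have h4 : ρ k = R.degreeOf (Fin.last k) := hρj (Fin.last k)
      rw [h4]
      exact hρ) hcoreA hcoreB
  exact ⟨j, by omega, hfin⟩

end Pool.Agent.H22
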