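import Mathlib
import Pool.Agent.H22.Core

set_option autoImplicit false

namespace Pool.Agent.H22

open MvPolynomial

lemma tendsto_div_pow {D : ℕ → ℕ} {δ : ℝ}
    (hδ : Filter.Tendsto (fun n : ℕ => ((D n : ℝ)) ^ ((1 : ℝ) / (n : ℝ))) Filter.atTop (nhds δ))
    (hδ0 : 0 ≤ δ) (B : ℝ) (hB : δ < B) :
    Filter.Tendsto (fun n => (D n : ℝ) / B ^ n) Filter.atTop (nhds 0) := by
  obtain ⟨B', hB'1, hB'2⟩ := exists_between hB
  have hB'0 : 0 < B' := lt_of_le_of_lt hδ0 hB'1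
  have hB0 : 0 < B := hB'0.trans hB'2
  have h1 : ∀ᶠ n : ℕ in Filter.atTop, (D n : ℝ) ^ ((1 : ℝ) / (n : ℝ)) < B' :=
    hδ.eventually (gt_mem_nhds hB'1)
  have h2 : ∀ᶠ n : ℕ in Filter.atTop, (D n : ℝ) / B ^ n ≤ (B' / B) ^ n := by
    filter_upwards [h1, Filter.eventually_gt_atTop 0] with n hn hn0
    rw [div_pow]
    apply div_le_div_of_nonneg_right _ (pow_nonneg hB0.le n)
    have h3 : (D n : ℝ) = ((D n : ℝ) ^ ((1 : ℝ) / (n : ℝ))) ^ n := by
      rw [← Real.rpow_natCast, ← Real.rpow_mul (Nat.cast_nonneg _)]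
      have : (n : ℝ) ≠ 0 := by positivity
      rw [one_div, inv_mul_cancel₀ this, Real.rpow_one]
    rw [h3]
    exact pow_le_pow_left₀ (Real.rpow_nonneg (Nat.cast_nonneg _) _) hn.le n
  have h3 : Filter.Tendsto (fun n : ℕ => (B' / B) ^ n) Filter.atTop (nhds 0) := by
    apply tendsto_pow_atTop_nhds_zero_of_lt_one (div_nonneg hB'0.le hB0.le)
    rw [div_lt_one hB0]
    exact hB'2
  refine squeeze_zero' ?_ h2 h3
  exact Filter.Eventually.of_forall fun n => div_nonneg (Nat.cast_nonneg _) (pow_nonneg hB0.le n)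

theorem final {K : Type*} [Field K] [IsAlgClosed K] {N : ℕ} (hN : 1 ≤ N)
    (f : Fin (N + 1) → MvPolynomial (Fin (N + 1)) K) (d : ℕ)
    (hf : ∀ i, (f i).IsHomogeneous d) (hind : AlgebraicIndependent K f)
    (D : ℕ → ℕ) (hD : ∀ n, D n = sInf (degSet f n)) (δ : ℝ)
    (hδ : Filter.Tendsto (fun n : ℕ => ((D n : ℝ)) ^ ((1 : ℝ) / (n : ℝ)))
      Filter.atTop (nhds δ)) :
    ∃ k < N, (1 / (((N : ℝ) + 1) ^ 2) ^ (2 * N + 1)) * ((D (k + 1) : ℝ) / (D k : ℝ)) ≤ δ := by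
  have hδ0 : 0 ≤ δ :=
    ge_of_tendsto' hδ fun n => Real.rpow_nonneg (Nat.cast_nonneg _) _
  by_cases hpos : ∀ j ≤ N, 0 < D j
  · by_contra hcon
    push Not at hcon
    set Γ : ℝ := (((N : ℝ) + 1) ^ 2) ^ (2 * N + 1) with hΓ
    have hΓ0 : 0 < Γ := by positivity
    -- choose a number strictly between
    have hne : (Finset.range N).Nonempty := ⟨0, Finset.mem_range.mpr (by omega)⟩
    obtain ⟨k0, hk0, hmin⟩ := Finset.exists_min_image (Finset.range N)
      (fun k => (1 / Γ) * ((D (k + 1) : ℝ) / (D k : ℝ))) hne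
    rw [Finset.mem_range] at hk0
    obtain ⟨δ', h1, h2⟩ := exists_between (hcon k0 hk0)
    have hδ'0 : 0 < δ' := lt_of_le_of_lt hδ0 h1
    obtain ⟨j, hj, hj2⟩ := core f d hf hind D hD hpos δ' hδ'0
      (fun B hB => tendsto_div_pow hδ hδ0 B (h1.trans hB))
    have h3 := hmin j (Finset.mem_range.mpr hj)
    have h4 : (1 / Γ) * ((D (j + 1) : ℝ) / (D j : ℝ)) ≤ δ' := by
      rw [one_div, inv_mul_le_iff₀ hΓ0]
      exact hj2
    linarith
  · push Not at hpos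
    obtain ⟨j, hj, hj2⟩ := hpos
    have hj0 : D j = 0 := by omega
    rcases Nat.eq_zero_or_pos j with h | h
    · refine ⟨0, by omega, ?_⟩
      rw [h] at hj0
      rw [hj0]
      simpa using hδ0
    · refine ⟨j - 1, by omega, ?_⟩
      have h5 : j - 1 + 1 = j := by omega
      rw [h5, hj0]
      simpa using hδ0

end Pool.Agent.H22
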